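import Mathlib

/-!
Polynomial functions of degree `< m` on a vector space, coordinate free:
the span of the products of fewer than `m` linear functionals.
-/

namespace Pool.Agent.QuadPoly

open Polynomial

variable {F : Type*} [Field F] {V W : Type*} [AddCommGroup V] [Module F V]
  [AddCommGroup W] [Module F W]

/-- product of a list of linear functionals, as a function -/
def lp (l : List (V →ₗ[F] F)) : V → F := fun x => (l.map (fun φ => φ x)).prod

theorem lp_nil : lp ([] : List (V →ₗ[F] F)) = fun _ => 1 := by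
  funext x; simp [lp]

theorem lp_cons (φ : V →ₗ[F] F) (l : List (V →ₗ[F] F)) :
    lp (φ :: l) = (fun x => φ x) * lp l := by
  funext x; simp [lp]

theorem lp_append (l l' : List (V →ₗ[F] F)) : lp (l ++ l') = lp l * lp l' := by
  funext x; simp [lp]

variable (F V) in
/-- functions `V → F` that are polynomial of degree `< m` -/
def PL (m : ℕ) : Submodule F (V → F) :=
  Submodule.span F {f | ∃ l : List (V →ₗ[F] F), l.length < m ∧ f = lp l}

theorem lp_mem {m : ℕ} {l : List (V →ₗ[F] F)} (h : l.length < m) : lp l ∈ PL F V m :=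
  Submodule.subset_span ⟨l, h, rfl⟩

theorem PL_mono {m n : ℕ} (h : m ≤ n) : PL F V m ≤ PL F V n := by
  refine Submodule.span_mono ?_
  rintro f ⟨l, hl, rfl⟩
  exact ⟨l, lt_of_lt_of_le hl h, rfl⟩

theorem PL_zero {f : V → F} (h : f ∈ PL F V 0) : f = 0 := by
  have : PL F V 0 = ⊥ := by
    unfold PL
    rw [Submodule.span_eq_bot]
    rintro f ⟨l, hl, _⟩
    omega
  rw [this] at h
  simpa using h

theorem PL_mul {m n : ℕ} {f g : V → F} (hf : f ∈ PL F V m) (hg : g ∈ PL F V n) :
    f * g ∈ PL F V (m + n - 1) := by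
  refine Submodule.span_induction (p := fun f _ => f * g ∈ PL F V (m + n - 1)) ?_ ?_ ?_ ?_ hf
  · rintro f ⟨l, hl, rfl⟩
    refine Submodule.span_induction (p := fun g _ => lp l * g ∈ PL F V (m + n - 1))
      ?_ ?_ ?_ ?_ hg
    · rintro g ⟨l', hl', rfl⟩
      rw [← lp_append]
      exact lp_mem (by rw [List.length_append]; omega)
    · simp
    · intro x y _ _ hx hy
      rw [mul_add]; exact Submodule.add_mem _ hx hy
    · intro a x _ hx
      rw [mul_smul_comm]; exact Submodule.smul_mem _ _ hx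
  · simp
  · intro x y _ _ hx hy
    rw [add_mul]; exact Submodule.add_mem _ hx hy
  · intro a x _ hx
    rw [smul_mul_assoc]; exact Submodule.smul_mem _ _ hx

theorem PL_comp {m : ℕ} {f : V → F} (hf : f ∈ PL F V m) (T : W →ₗ[F] V) :
    (fun w => f (T w)) ∈ PL F W m := by
  refine Submodule.span_induction (p := fun f _ => (fun w => f (T w)) ∈ PL F W m) ?_ ?_ ?_ ?_ hf
  · rintro f ⟨l, hl, rfl⟩
    have : (fun w => lp l (T w)) = lp (l.map (fun φ => φ.comp T)) := by
      funext w
      simp [lp, List.map_map, Function.comp_def]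
    rw [this]
    exact lp_mem (by simpa using hl)
  · exact Submodule.zero_mem _
  · intro x y _ _ hx hy
    exact Submodule.add_mem _ hx hy
  · intro a x _ hx
    exact Submodule.smul_mem _ a hx

theorem PL_one {m : ℕ} (hm : 0 < m) : (fun _ => 1 : V → F) ∈ PL F V m := by
  rw [← lp_nil]; exact lp_mem (by simpa using hm)

theorem PL_const {m : ℕ} (hm : 0 < m) (c : F) : (fun _ => c : V → F) ∈ PL F V m := by
  have : (fun _ => c : V → F) = c • (fun _ => 1 : V → F) := by
    funext x; simp
  rw [this]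
  exact Submodule.smul_mem _ _ (PL_one hm)

theorem PL_dual (φ : V →ₗ[F] F) : (fun x => φ x) ∈ PL F V 2 := by
  have : (fun x => φ x) = lp [φ] := by funext x; simp [lp]
  rw [this]; exact lp_mem (by simp)

theorem PL_pow {m : ℕ} {f : V → F} (hf : f ∈ PL F V (m + 1)) (n : ℕ) :
    f ^ n ∈ PL F V (n * m + 1) := by
  induction n with
  | zero =>
    have h1 := PL_one (F := F) (V := V) (m := 0 * m + 1) (by omega)
    rw [pow_zero]
    exact h1
  | succ n ih =>
    rw [pow_succ]
    have := PL_mul ih hf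
    have e : n * m + 1 + (m + 1) - 1 = (n + 1) * m + 1 := by
      rw [Nat.succ_mul]; omega
    rwa [e] at this

theorem PL_sum {ι : Type*} {m : ℕ} (s : Finset ι) {f : ι → V → F}
    (h : ∀ i ∈ s, f i ∈ PL F V m) : (fun x => ∑ i ∈ s, f i x) ∈ PL F V m := by
  have : (fun x => ∑ i ∈ s, f i x) = ∑ i ∈ s, f i := by
    funext x; simp
  rw [this]
  exact Submodule.sum_mem _ h

/-! ### restriction to lines and top form -/

theorem lp_line (l : List (V →ₗ[F] F)) (v h : V) :
    ∃ P : F[X], P.natDegree ≤ l.length ∧ P.coeff l.length = lp l h ∧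
      ∀ t : F, lp l (v + t • h) = P.eval t := by
  induction l with
  | nil => exact ⟨1, by simp, by simp [lp], by simp [lp]⟩
  | cons φ l ih =>
    obtain ⟨P, h1, h2, h3⟩ := ih
    have hd : (C (φ v) + C (φ h) * X : F[X]).natDegree ≤ 1 := by
      compute_degree
    refine ⟨(C (φ v) + C (φ h) * X) * P, ?_, ?_, ?_⟩
    · refine (natDegree_mul_le).trans ?_
      rw [List.length_cons]; omega
    · rw [List.length_cons, add_comm l.length 1, coeff_mul_add_eq_of_natDegree_le hd h1, h2, lp_cons]
      simp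
    · intro t
      rw [lp_cons, Pi.mul_apply, h3, eval_mul]
      simp
      ring_nf
      simp

/-- `f` restricted to the line `v + t h` is a polynomial of degree `< m` whose coefficient at
`m - 1` is `c`. -/
def OnLine (f : V → F) (m : ℕ) (v h : V) (c : F) : Prop :=
  ∃ P : F[X], P.degree < m ∧ P.coeff (m - 1) = c ∧ ∀ t : F, f (v + t • h) = P.eval t

theorem PL_top {m : ℕ} {f : V → F} (hf : f ∈ PL F V m) :
    ∃ fn ∈ PL F V m, f - fn ∈ PL F V (m - 1) ∧ ∀ v h, OnLine f m v h (fn h) := by
  refine Submodule.span_induction (p := fun f _ => ∃ fn ∈ PL F V m, f - fn ∈ PL F V (m - 1) ∧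
    ∀ v h, OnLine f m v h (fn h)) ?_ ?_ ?_ ?_ hf
  · rintro f ⟨l, hl, rfl⟩
    by_cases hlm : l.length + 1 = m
    · refine ⟨lp l, lp_mem hl, by simp, ?_⟩
      intro v h
      obtain ⟨P, h1, h2, h3⟩ := lp_line l v h
      refine ⟨P, ?_, ?_, h3⟩
      · refine lt_of_le_of_lt degree_le_natDegree ?_
        exact_mod_cast lt_of_le_of_lt h1 hl
      · have : m - 1 = l.length := by omega
        rw [this, h2]
    · refine ⟨0, Submodule.zero_mem _, ?_, ?_⟩
      · rw [sub_zero]; exact lp_mem (by omega)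
      · intro v h
        obtain ⟨P, h1, h2, h3⟩ := lp_line l v h
        refine ⟨P, ?_, ?_, h3⟩
        · refine lt_of_le_of_lt degree_le_natDegree ?_
          exact_mod_cast lt_of_le_of_lt h1 hl
        · rw [Pi.zero_apply]
          exact coeff_eq_zero_of_natDegree_lt (by omega)
  · refine ⟨0, Submodule.zero_mem _, by simp, ?_⟩
    intro v h
    refine ⟨0, ?_, by simp, by simp⟩
    rw [degree_zero]
    exact WithBot.bot_lt_coe m
  · rintro x y _ _ ⟨fx, hx1, hx2, hx3⟩ ⟨fy, hy1, hy2, hy3⟩
    refine ⟨fx + fy, Submodule.add_mem _ hx1 hy1, ?_, ?_⟩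
    · have : x + y - (fx + fy) = (x - fx) + (y - fy) := by abel
      rw [this]; exact Submodule.add_mem _ hx2 hy2
    · intro v h
      obtain ⟨P, p1, p2, p3⟩ := hx3 v h
      obtain ⟨Q, q1, q2, q3⟩ := hy3 v h
      refine ⟨P + Q, lt_of_le_of_lt (degree_add_le _ _) (max_lt p1 q1), ?_, ?_⟩
      · rw [coeff_add, p2, q2]; rfl
      · intro t
        rw [Pi.add_apply, p3, q3, eval_add]
  · rintro a x _ ⟨fx, hx1, hx2, hx3⟩
    refine ⟨a • fx, Submodule.smul_mem _ _ hx1, ?_, ?_⟩
    · rw [← smul_sub]; exact Submodule.smul_mem _ _ hx2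
    · intro v h
      obtain ⟨P, p1, p2, p3⟩ := hx3 v h
      refine ⟨C a * P, ?_, ?_, ?_⟩
      · refine lt_of_le_of_lt ?_ p1
        rw [← smul_eq_C_mul]
        exact degree_smul_le _ _
      · rw [coeff_C_mul, p2]; rfl
      · intro t
        rw [Pi.smul_apply, p3, eval_mul, eval_C, smul_eq_mul]

theorem PL_line {m : ℕ} {f : V → F} (hf : f ∈ PL F V m) (v h : V) :
    ∃ P : F[X], P.degree < m ∧ ∀ t : F, f (v + t • h) = P.eval t := by
  obtain ⟨fn, _, _, h3⟩ := PL_top hf
  obtain ⟨P, p1, _, p3⟩ := h3 v h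
  exact ⟨P, p1, p3⟩

/-! ### low degree polynomials are determined by their values -/

variable [Fintype F]

theorem poly_eq_zero {P : F[X]} {m : ℕ} (hm : m ≤ Fintype.card F) (hP : P.degree < m)
    (h : ∀ t, P.eval t = 0) : P = 0 := by
  classical
  refine Polynomial.eq_zero_of_degree_lt_of_eval_finset_eq_zero (Finset.univ : Finset F) ?_
    (fun x _ => h x)
  refine lt_of_lt_of_le hP ?_
  rw [Finset.card_univ]
  exact_mod_cast hm

theorem poly_eq {P Q : F[X]} {m : ℕ} (hm : m ≤ Fintype.card F) (hP : P.degree < m)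
    (hQ : Q.degree < m) (h : ∀ t, P.eval t = Q.eval t) : P = Q := by
  have : P - Q = 0 := by
    refine poly_eq_zero hm (lt_of_le_of_lt (degree_sub_le _ _) (max_lt hP hQ)) ?_
    intro t; rw [eval_sub, h, sub_self]
  exact sub_eq_zero.1 this

/-- vanishing off zero suffices with one more value -/
theorem poly_eq_zero' {P : F[X]} {m : ℕ} (hm : m + 1 ≤ Fintype.card F) (hP : P.degree < m)
    (h : ∀ t, t ≠ 0 → P.eval t = 0) : P = 0 := by
  classical
  refine Polynomial.eq_zero_of_degree_lt_of_eval_finset_eq_zero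
    ((Finset.univ : Finset F).erase 0) ?_ (fun x hx => h x (Finset.ne_of_mem_erase hx))
  refine lt_of_lt_of_le hP ?_
  rw [Finset.card_erase_of_mem (Finset.mem_univ _), Finset.card_univ]
  exact_mod_cast (by omega : m ≤ Fintype.card F - 1)

theorem poly_eq' {P Q : F[X]} {m : ℕ} (hm : m + 1 ≤ Fintype.card F) (hP : P.degree < m)
    (hQ : Q.degree < m) (h : ∀ t, t ≠ 0 → P.eval t = Q.eval t) : P = Q := by
  have : P - Q = 0 := by
    refine poly_eq_zero' hm (lt_of_le_of_lt (degree_sub_le _ _) (max_lt hP hQ)) ?_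
    intro t ht; rw [eval_sub, h t ht, sub_self]
  exact sub_eq_zero.1 this

/-- Low-degree polynomial functions have no zero divisors. -/
theorem PL_domain {m n : ℕ} {f g : V → F} (hf : f ∈ PL F V m) (hg : g ∈ PL F V n)
    (hc : m + n ≤ Fintype.card F + 1) (hfg : ∀ x, f x * g x = 0) :
    f = 0 ∨ g = 0 := by
  by_contra hcon
  push Not at hcon
  obtain ⟨hf0, hg0⟩ := hcon
  obtain ⟨u, hu⟩ := Function.ne_iff.1 hf0
  obtain ⟨w, hw⟩ := Function.ne_iff.1 hg0
  obtain ⟨P, p1, p2⟩ := PL_line hf u (w - u)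
  obtain ⟨Q, q1, q2⟩ := PL_line hg u (w - u)
  have hP0 : P ≠ 0 := by
    intro h
    have := p2 0
    rw [h] at this
    simp at this
    exact hu this
  have hQ0 : Q ≠ 0 := by
    intro h
    have := q2 1
    rw [h] at this
    simp at this
    exact hw this
  have hd : (P * Q).degree < ((m + n - 1 : ℕ) : WithBot ℕ) := by
    rw [degree_mul, degree_eq_natDegree hP0, degree_eq_natDegree hQ0]
    rw [degree_eq_natDegree hP0] at p1
    rw [degree_eq_natDegree hQ0] at q1
    have p1' : P.natDegree < m := by exact_mod_cast p1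
    have q1' : Q.natDegree < n := by exact_mod_cast q1
    exact_mod_cast (by omega : P.natDegree + Q.natDegree < m + n - 1)
  have : P * Q = 0 := by
    refine poly_eq_zero (by omega) hd ?_
    intro t
    rw [eval_mul, ← p2, ← q2]
    exact hfg _
  rcases mul_eq_zero.1 this with h | h
  · exact hP0 h
  · exact hQ0 h

end Pool.Agent.QuadPoly
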