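import Mathlib
import Pool.Agent.QuadPoly.PL

/-!
Polynomial functions on `F × F × Z` which have degree `≤ k` along the isotropic lines of the
quadratic form `x y + q z`.
-/

namespace Pool.Agent.QuadPoly

open Polynomial

variable {F : Type*} [Field F] {Z : Type*} [AddCommGroup Z] [Module F Z]

/-- the quadratic form `x y + q z` -/
def Qf (q : Z → F) (w : F × F × Z) : F := w.1 * w.2.1 + q w.2.2

def genX (q : Z → F) (j i : ℕ) (R : Z → F) : F × F × Z → F :=
  fun w => Qf q w ^ j * w.1 ^ i * R w.2.2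

def genY (q : Z → F) (j i : ℕ) (R : Z → F) : F × F × Z → F :=
  fun w => Qf q w ^ j * w.2.1 ^ i * R w.2.2

/-- normal form functions of weight at most `N` -/
def NS (q : Z → F) (N : ℕ) : Submodule F (F × F × Z → F) :=
  Submodule.span F ({f | ∃ j i R, R ∈ PL F Z (N + 1 - j - i) ∧ j + i ≤ N ∧ f = genX q j i R} ∪
    {f | ∃ j i R, R ∈ PL F Z (N + 1 - j - i) ∧ j + i ≤ N ∧ f = genY q j i R})

theorem genX_mem {q : Z → F} {N j i : ℕ} {R : Z → F} (hR : R ∈ PL F Z (N + 1 - j - i))
    (h : j + i ≤ N) : genX q j i R ∈ NS q N :=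
  Submodule.subset_span (Or.inl ⟨j, i, R, hR, h, rfl⟩)

theorem genY_mem {q : Z → F} {N j i : ℕ} {R : Z → F} (hR : R ∈ PL F Z (N + 1 - j - i))
    (h : j + i ≤ N) : genY q j i R ∈ NS q N :=
  Submodule.subset_span (Or.inr ⟨j, i, R, hR, h, rfl⟩)

/-- induction principle -/
theorem NS_mul_mem {q : Z → F} {N : ℕ} (u : F × F × Z → F)
    (hX : ∀ j i R, R ∈ PL F Z (N + 1 - j - i) → j + i ≤ N → u * genX q j i R ∈ NS q (N + 1))
    (hY : ∀ j i R, R ∈ PL F Z (N + 1 - j - i) → j + i ≤ N → u * genY q j i R ∈ NS q (N + 1))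
    {f : F × F × Z → F} (hf : f ∈ NS q N) : u * f ∈ NS q (N + 1) := by
  refine Submodule.span_induction (p := fun f _ => u * f ∈ NS q (N + 1)) ?_ ?_ ?_ ?_ hf
  · rintro f (⟨j, i, R, hR, h, rfl⟩ | ⟨j, i, R, hR, h, rfl⟩)
    · exact hX j i R hR h
    · exact hY j i R hR h
  · rw [mul_zero]; exact Submodule.zero_mem _
  · intro x y _ _ hx hy
    rw [mul_add]; exact Submodule.add_mem _ hx hy
  · intro a x _ hx
    rw [mul_smul_comm]; exact Submodule.smul_mem _ _ hx

theorem mulX {q : Z → F} (hq : q ∈ PL F Z 3) {N : ℕ} {f : F × F × Z → F} (hf : f ∈ NS q N) :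
    (fun w => w.1 : F × F × Z → F) * f ∈ NS q (N + 1) := by
  refine NS_mul_mem _ ?_ ?_ hf
  · intro j i R hR h
    have e : (fun w => w.1 : F × F × Z → F) * genX q j i R = genX q j (i + 1) R := by
      funext w; simp only [genX, Pi.mul_apply]; ring
    rw [e]
    exact genX_mem (PL_mono (by omega) hR) (by omega)
  · intro j i R hR h
    cases i with
    | zero =>
      have e : (fun w => w.1 : F × F × Z → F) * genY q j 0 R = genX q j 1 R := by
        funext w; simp only [genX, genY, Pi.mul_apply]; ring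
      rw [e]
      exact genX_mem (PL_mono (by omega) hR) (by omega)
    | succ i =>
      have e : (fun w => w.1 : F × F × Z → F) * genY q j (i + 1) R =
          genY q (j + 1) i R - genY q j i (q * R) := by
        funext w
        simp only [genY, Pi.mul_apply, Pi.sub_apply, Qf]
        ring
      rw [e]
      refine Submodule.sub_mem _ (genY_mem (PL_mono (by omega) hR) (by omega))
        (genY_mem (PL_mono (by omega) (PL_mul hq hR)) (by omega))

theorem mulY {q : Z → F} (hq : q ∈ PL F Z 3) {N : ℕ} {f : F × F × Z → F} (hf : f ∈ NS q N) :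
    (fun w => w.2.1 : F × F × Z → F) * f ∈ NS q (N + 1) := by
  refine NS_mul_mem _ ?_ ?_ hf
  · intro j i R hR h
    cases i with
    | zero =>
      have e : (fun w => w.2.1 : F × F × Z → F) * genX q j 0 R = genY q j 1 R := by
        funext w; simp only [genX, genY, Pi.mul_apply]; ring
      rw [e]
      exact genY_mem (PL_mono (by omega) hR) (by omega)
    | succ i =>
      have e : (fun w => w.2.1 : F × F × Z → F) * genX q j (i + 1) R =
          genX q (j + 1) i R - genX q j i (q * R) := by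
        funext w
        simp only [genX, Pi.mul_apply, Pi.sub_apply, Qf]
        ring
      rw [e]
      refine Submodule.sub_mem _ (genX_mem (PL_mono (by omega) hR) (by omega))
        (genX_mem (PL_mono (by omega) (PL_mul hq hR)) (by omega))
  · intro j i R hR h
    have e : (fun w => w.2.1 : F × F × Z → F) * genY q j i R = genY q j (i + 1) R := by
      funext w; simp only [genY, Pi.mul_apply]; ring
    rw [e]
    exact genY_mem (PL_mono (by omega) hR) (by omega)

theorem mulZ {q : Z → F} (φ : Z →ₗ[F] F) {N : ℕ} {f : F × F × Z → F} (hf : f ∈ NS q N) :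
    (fun w => φ w.2.2 : F × F × Z → F) * f ∈ NS q (N + 1) := by
  refine NS_mul_mem _ ?_ ?_ hf
  · intro j i R hR h
    have e : (fun w => φ w.2.2 : F × F × Z → F) * genX q j i R =
        genX q j i ((fun z => φ z) * R) := by
      funext w; simp only [genX, Pi.mul_apply]; ring
    rw [e]
    exact genX_mem (PL_mono (by omega) (PL_mul (PL_dual φ) hR)) (by omega)
  · intro j i R hR h
    have e : (fun w => φ w.2.2 : F × F × Z → F) * genY q j i R =
        genY q j i ((fun z => φ z) * R) := by
      funext w; simp only [genY, Pi.mul_apply]; ring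
    rw [e]
    exact genY_mem (PL_mono (by omega) (PL_mul (PL_dual φ) hR)) (by omega)

theorem mulDual {q : Z → F} (hq : q ∈ PL F Z 3) (Φ : (F × F × Z) →ₗ[F] F) {N : ℕ}
    {f : F × F × Z → F} (hf : f ∈ NS q N) :
    (fun w => Φ w : F × F × Z → F) * f ∈ NS q (N + 1) := by
  have e : (fun w => Φ w : F × F × Z → F) * f =
      Φ (1, 0, 0) • ((fun w => w.1 : F × F × Z → F) * f) +
      Φ (0, 1, 0) • ((fun w => w.2.1 : F × F × Z → F) * f) +
      (fun w => (Φ.comp ((LinearMap.inr F F (F × Z)).comp (LinearMap.inr F F Z))) w.2.2) * f := by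
    funext w
    obtain ⟨x, y, z⟩ := w
    have hw : ((x, y, z) : F × F × Z) = x • (1, 0, 0) + y • (0, 1, 0) + (0, 0, z) := by
      simp
    simp only [Pi.mul_apply, Pi.add_apply, Pi.smul_apply, smul_eq_mul]
    rw [hw, map_add, map_add, map_smul, map_smul]
    simp
    ring
  rw [e]
  exact Submodule.add_mem _ (Submodule.add_mem _ (Submodule.smul_mem _ _ (mulX hq hf))
    (Submodule.smul_mem _ _ (mulY hq hf))) (mulZ _ hf)

theorem NS_mono_succ {q : Z → F} {N : ℕ} : NS q N ≤ NS q (N + 1) := by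
  refine Submodule.span_le.2 ?_
  rintro f (⟨j, i, R, hR, h, rfl⟩ | ⟨j, i, R, hR, h, rfl⟩)
  · exact genX_mem (PL_mono (by omega) hR) (by omega)
  · exact genY_mem (PL_mono (by omega) hR) (by omega)

theorem NS_mono {q : Z → F} {N N' : ℕ} (h : N ≤ N') : NS q N ≤ NS q N' := by
  induction h with
  | refl => exact le_refl _
  | step _ ih => exact ih.trans NS_mono_succ

theorem lp_mem_NS {q : Z → F} (hq : q ∈ PL F Z 3) (l : List ((F × F × Z) →ₗ[F] F)) :
    lp l ∈ NS q l.length := by
  induction l with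
  | nil =>
    have e : lp ([] : List ((F × F × Z) →ₗ[F] F)) = genX q 0 0 (fun _ => 1) := by
      funext w; simp [lp, genX]
    rw [e]
    exact genX_mem (PL_one (by simp)) (by simp)
  | cons φ l ih =>
    rw [lp_cons]
    exact mulDual hq φ ih

theorem PL_le_NS {q : Z → F} (hq : q ∈ PL F Z 3) (D : ℕ) :
    PL F (F × F × Z) (D + 1) ≤ NS q D := by
  refine Submodule.span_le.2 ?_
  rintro f ⟨l, hl, rfl⟩
  exact NS_mono (by omega) (lp_mem_NS hq l)

/-- representation by families -/
def Rep (q : Z → F) (D : ℕ) (A B : ℕ → ℕ → Z → F) (w : F × F × Z) : F :=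
  ∑ j ∈ Finset.range (D + 1), ∑ i ∈ Finset.range (D + 1),
    (Qf q w ^ j * w.1 ^ i * A j i w.2.2 + Qf q w ^ j * w.2.1 ^ (i + 1) * B j i w.2.2)

def Lev (N : ℕ) (A B : ℕ → ℕ → Z → F) : Prop :=
  (∀ j i, A j i ∈ PL F Z (N + 1 - j - i)) ∧ (∀ j i, B j i ∈ PL F Z (N + 1 - j - (i + 1)))

theorem NS_families {q : Z → F} {N D : ℕ} (hND : N ≤ D) {f : F × F × Z → F} (hf : f ∈ NS q N) :
    ∃ A B : ℕ → ℕ → Z → F, Lev N A B ∧ ∀ w, f w = Rep q D A B w := by
  classical
  have single : ∀ j i : ℕ, j ≤ D → i ≤ D → ∀ c : ℕ → ℕ → F,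
      ∑ j' ∈ Finset.range (D + 1), ∑ i' ∈ Finset.range (D + 1),
        (if j' = j ∧ i' = i then c j' i' else 0) = c j i := by
    intro j i hj hi c
    rw [Finset.sum_eq_single j]
    · rw [Finset.sum_eq_single i]
      · simp
      · intro i' _ hi'; simp [hi']
      · intro h; exact absurd (Finset.mem_range.2 (by omega)) h
    · intro j' _ hj'
      refine Finset.sum_eq_zero fun i' _ => ?_
      simp [hj']
    · intro h; exact absurd (Finset.mem_range.2 (by omega)) h
  have hX : ∀ j i : ℕ, ∀ R : Z → F, R ∈ PL F Z (N + 1 - j - i) → j + i ≤ N →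
      ∃ A B : ℕ → ℕ → Z → F, Lev N A B ∧ ∀ w, genX q j i R w = Rep q D A B w := by
    intro j i R hR h
    refine ⟨fun j' i' => if j' = j ∧ i' = i then R else 0, fun _ _ => 0, ⟨?_, ?_⟩, ?_⟩
    · intro j' i'
      by_cases hc : j' = j ∧ i' = i
      · beta_reduce; rw [if_pos hc, hc.1, hc.2]; exact hR
      · beta_reduce; rw [if_neg hc]; exact Submodule.zero_mem _
    · intro j' i'; exact Submodule.zero_mem _
    · intro w
      unfold Rep genX
      rw [← single j i (by omega) (by omega) (fun j i => Qf q w ^ j * w.1 ^ i * R w.2.2)]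
      refine Finset.sum_congr rfl fun j' _ => Finset.sum_congr rfl fun i' _ => ?_
      by_cases hc : j' = j ∧ i' = i
      · simp [hc]
      · simp [hc]
  refine Submodule.span_induction (p := fun f _ => ∃ A B : ℕ → ℕ → Z → F, Lev N A B ∧
    ∀ w, f w = Rep q D A B w) ?_ ?_ ?_ ?_ hf
  · rintro f (⟨j, i, R, hR, h, rfl⟩ | ⟨j, i, R, hR, h, rfl⟩)
    · exact hX j i R hR h
    · cases i with
      | zero =>
        have e : genY q j 0 R = genX q j 0 R := by
          funext w; simp [genX, genY]
        rw [e]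
        exact hX j 0 R hR h
      | succ i =>
        refine ⟨fun _ _ => 0, fun j' i' => if j' = j ∧ i' = i then R else 0, ⟨?_, ?_⟩, ?_⟩
        · intro j' i'; exact Submodule.zero_mem _
        · intro j' i'
          by_cases hc : j' = j ∧ i' = i
          · beta_reduce; rw [if_pos hc, hc.1, hc.2]; exact hR
          · beta_reduce; rw [if_neg hc]; exact Submodule.zero_mem _
        · intro w
          unfold Rep genY
          rw [← single j i (by omega) (by omega)
            (fun j i => Qf q w ^ j * w.2.1 ^ (i + 1) * R w.2.2)]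
          refine Finset.sum_congr rfl fun j' _ => Finset.sum_congr rfl fun i' _ => ?_
          by_cases hc : j' = j ∧ i' = i
          · simp [hc]
          · simp [hc]
  · refine ⟨fun _ _ => 0, fun _ _ => 0, ⟨fun _ _ => Submodule.zero_mem _,
      fun _ _ => Submodule.zero_mem _⟩, ?_⟩
    intro w
    simp [Rep]
  · rintro x y _ _ ⟨A, B, h1, h2⟩ ⟨A', B', h1', h2'⟩
    refine ⟨fun j i => A j i + A' j i, fun j i => B j i + B' j i,
      ⟨fun j i => Submodule.add_mem _ (h1.1 j i) (h1'.1 j i),
        fun j i => Submodule.add_mem _ (h1.2 j i) (h1'.2 j i)⟩, ?_⟩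
    intro w
    rw [Pi.add_apply, h2, h2']
    unfold Rep
    rw [← Finset.sum_add_distrib]
    refine Finset.sum_congr rfl fun j _ => ?_
    rw [← Finset.sum_add_distrib]
    refine Finset.sum_congr rfl fun i _ => ?_
    simp only [Pi.add_apply]
    ring
  · rintro a x _ ⟨A, B, h1, h2⟩
    refine ⟨fun j i => a • A j i, fun j i => a • B j i,
      ⟨fun j i => Submodule.smul_mem _ _ (h1.1 j i),
        fun j i => Submodule.smul_mem _ _ (h1.2 j i)⟩, ?_⟩
    intro w
    rw [Pi.smul_apply, h2]
    unfold Rep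
    rw [Finset.smul_sum]
    refine Finset.sum_congr rfl fun j _ => ?_
    rw [Finset.smul_sum]
    refine Finset.sum_congr rfl fun i _ => ?_
    simp only [Pi.smul_apply, smul_eq_mul]
    ring

end Pool.Agent.QuadPoly
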