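import Mathlib
import Pool.Agent.QuadPoly.Slice

namespace Pool.Agent.QuadPoly

open Polynomial

variable {F : Type*} [Field F] {Z : Type*} [AddCommGroup Z] [Module F Z]

/-- the isotropic-line condition -/
def IsoLine (q : Z → F) (k : ℕ) (G : F × F × Z → F) : Prop :=
  ∀ v h : F × F × Z, Qf q h = 0 → ∃ P : F[X], P.degree < ((k + 1 : ℕ) : WithBot ℕ) ∧
    ∀ t : F, G (v + t • h) = P.eval t

/-- coefficient of a product of a monomial factor, a linear power and a polynomial -/
theorem coeff_term {N a b m : ℕ} (hm : a + b + m = N + 2) (hm0 : 0 < m) {P Q R : F[X]}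
    (hP : P.natDegree ≤ a) (hQ : Q.natDegree ≤ b) (hR : R.degree < m) :
    (P * Q * R).coeff (N + 1) = P.coeff a * Q.coeff b * R.coeff (m - 1) ∧
    (P * Q * R).degree < ((N + 2 : ℕ) : WithBot ℕ) := by
  have hR' : R.natDegree ≤ m - 1 := by
    by_cases h0 : R = 0
    · rw [h0]; simp
    · rw [degree_eq_natDegree h0] at hR
      have : R.natDegree < m := by exact_mod_cast hR
      omega
  have hPQ : (P * Q).natDegree ≤ a + b := natDegree_mul_le.trans (add_le_add hP hQ)
  constructor
  · have e : N + 1 = (a + b) + (m - 1) := by omega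
    rw [e, coeff_mul_add_eq_of_natDegree_le hPQ hR', coeff_mul_add_eq_of_natDegree_le hP hQ]
  · have h1 : (P * Q * R).natDegree ≤ (a + b) + (m - 1) :=
      natDegree_mul_le.trans (add_le_add hPQ hR')
    refine lt_of_le_of_lt degree_le_natDegree ?_
    exact_mod_cast (by omega : (P * Q * R).natDegree < N + 2)

theorem degree_lt_zero_eq {P : F[X]} (h : P.degree < ((0 : ℕ) : WithBot ℕ)) : P = 0 := by
  by_contra h0
  rw [degree_eq_natDegree h0] at h
  have : P.natDegree < 0 := by exact_mod_cast h
  omega

variable [Fintype F]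

theorem descent {q : Z → F} (hq : q ∈ PL F Z 3) (hq0 : q ≠ 0)
    (hqh : ∀ (t : F) z, q (t • z) = t ^ 2 * q z) {k N D : ℕ} (hkN : k ≤ N) (hND : N + 1 ≤ D)
    (hcard : 2 * D + 3 ≤ Fintype.card F) {A B : ℕ → ℕ → Z → F} (hL : Lev (N + 1) A B)
    (hG : IsoLine q k (Rep q D A B)) : Lev N A B := by
  classical
  -- top forms
  choose At hAt1 hAt2 hAt3 using fun j i => PL_top (hL.1 j i)
  choose Bt hBt1 hBt2 hBt3 using fun j i => PL_top (hL.2 j i)
  -- the coefficient identity
  have key : ∀ (z : Z) (l b : F), l ≠ 0 →
      ∑ j ∈ Finset.range (D + 1), ∑ i ∈ Finset.range (D + 1),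
        (b ^ j * l ^ i * At j i z + b ^ j * (-(q z) / l) ^ (i + 1) * Bt j i z) = 0 := by
    intro z l b hl
    set μ : F := -(q z) / l with hμ
    have hμl : l * μ = - q z := by rw [hμ]; field_simp
    have hiso : Qf q ((l, μ, z) : F × F × Z) = 0 := by
      simp only [Qf]; rw [hμl]; ring
    obtain ⟨P, hP1, hP2⟩ := hG (0, b / l, 0) (l, μ, z) hiso
    choose PA pa1 pa2 pa3 using fun j i => hAt3 j i 0 z
    choose PB pb1 pb2 pb3 using fun j i => hBt3 j i 0 z
    set PP : F[X] := ∑ j ∈ Finset.range (D + 1), ∑ i ∈ Finset.range (D + 1),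
      ((C b * X) ^ j * (C l * X) ^ i * PA j i +
        (C b * X) ^ j * (C (b / l) + C μ * X) ^ (i + 1) * PB j i) with hPP
    have heval : ∀ t : F, PP.eval t = P.eval t := by
      intro t
      rw [← hP2, hPP]
      have hpt : ((0, b / l, 0) : F × F × Z) + t • ((l, μ, z) : F × F × Z) =
          (t * l, b / l + t * μ, t • z) := by
        simp
      rw [hpt]
      unfold Rep
      rw [eval_finsetSum]
      refine Finset.sum_congr rfl fun j _ => ?_
      rw [eval_finsetSum]
      refine Finset.sum_congr rfl fun i _ => ?_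
      have hQ : Qf q ((t * l, b / l + t * μ, t • z) : F × F × Z) = b * t := by
        simp only [Qf]
        rw [hqh]
        have : t * l * (b / l + t * μ) = b * t + t ^ 2 * (l * μ) := by field_simp
        rw [this, hμl]; ring
      rw [hQ]
      have ea := pa3 j i t
      have eb := pb3 j i t
      rw [zero_add] at ea eb
      rw [ea, eb]
      simp only [eval_add, eval_mul, eval_pow, eval_C, eval_X]
      ring
    have hterm : ∀ j ∈ Finset.range (D + 1), ∀ i ∈ Finset.range (D + 1),
        (((C b * X) ^ j * (C l * X) ^ i * PA j i +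
        (C b * X) ^ j * (C (b / l) + C μ * X) ^ (i + 1) * PB j i : F[X])).coeff (N + 1) =
        b ^ j * l ^ i * At j i z + b ^ j * μ ^ (i + 1) * Bt j i z ∧
        (((C b * X) ^ j * (C l * X) ^ i * PA j i +
        (C b * X) ^ j * (C (b / l) + C μ * X) ^ (i + 1) * PB j i : F[X])).degree <
        ((N + 2 : ℕ) : WithBot ℕ) := by
      intro j _ i _
      have d1 : (C b * X : F[X]).natDegree ≤ 1 := by compute_degree
      have d2 : (C l * X : F[X]).natDegree ≤ 1 := by compute_degree
      have d3 : (C (b / l) + C μ * X : F[X]).natDegree ≤ 1 := by compute_degree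
      have c1 : ((C b * X : F[X]) ^ j).natDegree ≤ j := by
        simpa using natDegree_pow_le_of_le j d1
      have c2 : ((C l * X : F[X]) ^ i).natDegree ≤ i := by
        simpa using natDegree_pow_le_of_le i d2
      have c3 : ((C (b / l) + C μ * X : F[X]) ^ (i + 1)).natDegree ≤ i + 1 := by
        simpa using natDegree_pow_le_of_le (i + 1) d3
      have v1 : ((C b * X : F[X]) ^ j).coeff j = b ^ j := by
        have := coeff_pow_of_natDegree_le (m := j) d1
        rw [mul_one] at this
        rw [this]; simp
      have v2 : ((C l * X : F[X]) ^ i).coeff i = l ^ i := by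
        have := coeff_pow_of_natDegree_le (m := i) d2
        rw [mul_one] at this
        rw [this]; simp
      have v3 : ((C (b / l) + C μ * X : F[X]) ^ (i + 1)).coeff (i + 1) = μ ^ (i + 1) := by
        have := coeff_pow_of_natDegree_le (m := i + 1) d3
        rw [mul_one] at this
        rw [this]; simp
      have hzero : ((0 : F[X])).degree < ((N + 2 : ℕ) : WithBot ℕ) := by
        rw [degree_zero]; exact WithBot.bot_lt_coe _
      have hA : ((C b * X : F[X]) ^ j * (C l * X) ^ i * PA j i).coeff (N + 1) =
          b ^ j * l ^ i * At j i z ∧ ((C b * X : F[X]) ^ j * (C l * X) ^ i * PA j i).degree <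
          ((N + 2 : ℕ) : WithBot ℕ) := by
        by_cases hji : j + i ≤ N + 1
        · have := coeff_term (N := N) (a := j) (b := i) (m := N + 1 + 1 - j - i) (by omega)
            (by omega) c1 c2 (pa1 j i)
          rw [v1, v2, pa2] at this
          exact this
        · have h0 : N + 1 + 1 - j - i = 0 := by omega
          have hp := pa1 j i
          rw [h0] at hp
          have ha := hAt1 j i
          rw [h0] at ha
          rw [degree_lt_zero_eq hp, PL_zero ha]
          simpa using hzero
      have hB : ((C b * X : F[X]) ^ j * (C (b / l) + C μ * X) ^ (i + 1) * PB j i).coeff (N + 1) =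
          b ^ j * μ ^ (i + 1) * Bt j i z ∧
          ((C b * X : F[X]) ^ j * (C (b / l) + C μ * X) ^ (i + 1) * PB j i).degree <
          ((N + 2 : ℕ) : WithBot ℕ) := by
        by_cases hji : j + (i + 1) ≤ N + 1
        · have := coeff_term (N := N) (a := j) (b := i + 1) (m := N + 1 + 1 - j - (i + 1))
            (by omega) (by omega) c1 c3 (pb1 j i)
          rw [v1, v3, pb2] at this
          exact this
        · have h0 : N + 1 + 1 - j - (i + 1) = 0 := by omega
          have hp := pb1 j i
          rw [h0] at hp
          have ha := hBt1 j i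
          rw [h0] at ha
          rw [degree_lt_zero_eq hp, PL_zero ha]
          simpa using hzero
      refine ⟨?_, lt_of_le_of_lt (degree_add_le _ _) (max_lt hA.2 hB.2)⟩
      rw [coeff_add, hA.1, hB.1]
    have hPPdeg : PP.degree < ((N + 2 : ℕ) : WithBot ℕ) := by
      rw [hPP]
      refine lt_of_le_of_lt (degree_sum_le _ _) ?_
      rw [Finset.sup_lt_iff (WithBot.bot_lt_coe _)]
      intro j hj
      refine lt_of_le_of_lt (degree_sum_le _ _) ?_
      rw [Finset.sup_lt_iff (WithBot.bot_lt_coe _)]
      intro i hi
      exact (hterm j hj i hi).2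
    have hPdeg : P.degree < ((N + 2 : ℕ) : WithBot ℕ) := by
      refine lt_of_lt_of_le hP1 ?_
      exact_mod_cast (by omega : k + 1 ≤ N + 2)
    have hPPP : PP = P := poly_eq (by omega : N + 2 ≤ Fintype.card F) hPPdeg hPdeg heval
    have hc : PP.coeff (N + 1) = 0 := by
      rw [hPPP]
      refine coeff_eq_zero_of_degree_lt (lt_of_lt_of_le hP1 ?_)
      exact_mod_cast (by omega : k + 1 ≤ N + 1)
    rw [hPP, finsetSum_coeff] at hc
    rw [← hc]
    refine Finset.sum_congr rfl fun j hj => ?_
    rw [finsetSum_coeff]
    refine Finset.sum_congr rfl fun i hi => ?_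
    exact ((hterm j hj i hi).1).symm
  -- extraction in b
  have key2 : ∀ (z : Z) (l : F), l ≠ 0 → ∀ j ∈ Finset.range (D + 1),
      ∑ i ∈ Finset.range (D + 1),
        (l ^ i * At j i z + (-(q z) / l) ^ (i + 1) * Bt j i z) = 0 := by
    intro z l hl
    set S : ℕ → F := fun j => ∑ i ∈ Finset.range (D + 1),
        (l ^ i * At j i z + (-(q z) / l) ^ (i + 1) * Bt j i z) with hS
    set PP : F[X] := ∑ j ∈ Finset.range (D + 1), C (S j) * X ^ j with hPP
    have hdeg : PP.degree < ((D + 1 : ℕ) : WithBot ℕ) := by
      rw [hPP]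
      refine lt_of_le_of_lt (degree_sum_le _ _) ?_
      rw [Finset.sup_lt_iff (WithBot.bot_lt_coe _)]
      intro j hj
      refine lt_of_le_of_lt (degree_C_mul_X_pow_le _ _) ?_
      exact_mod_cast Finset.mem_range.1 hj
    have hz : PP = 0 := by
      refine poly_eq_zero (by omega) hdeg fun b => ?_
      rw [hPP, eval_finsetSum]
      rw [← key z l b hl]
      refine Finset.sum_congr rfl fun j _ => ?_
      simp only [eval_mul, eval_C, eval_pow, eval_X, hS]
      rw [Finset.sum_mul]
      refine Finset.sum_congr rfl fun i _ => ?_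
      ring
    intro j hj
    have := congrArg (fun P => P.coeff j) hz
    simp only [hPP, finsetSum_coeff, coeff_C_mul, coeff_X_pow, coeff_zero] at this
    rw [Finset.sum_eq_single j] at this
    · simpa using this
    · intro j' _ hj'
      rw [if_neg (Ne.symm hj')]; simp
    · intro h; exact absurd hj h
  -- extraction in l
  have key3 : ∀ (z : Z), ∀ j ∈ Finset.range (D + 1), ∀ i ∈ Finset.range (D + 1),
      At j i z = 0 ∧ (-(q z)) ^ (i + 1) * Bt j i z = 0 := by
    intro z j hj
    set PP : F[X] := ∑ i ∈ Finset.range (D + 1),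
      (C (At j i z) * X ^ (D + 1 + i) + C ((-(q z)) ^ (i + 1) * Bt j i z) * X ^ (D - i)) with hPP
    have hdeg : PP.degree < ((2 * D + 2 : ℕ) : WithBot ℕ) := by
      rw [hPP]
      refine lt_of_le_of_lt (degree_sum_le _ _) ?_
      rw [Finset.sup_lt_iff (WithBot.bot_lt_coe _)]
      intro i hi
      have hi' := Finset.mem_range.1 hi
      refine lt_of_le_of_lt (degree_add_le _ _) (max_lt ?_ ?_)
      · refine lt_of_le_of_lt (degree_C_mul_X_pow_le _ _) ?_
        exact_mod_cast (by omega : D + 1 + i < 2 * D + 2)
      · refine lt_of_le_of_lt (degree_C_mul_X_pow_le _ _) ?_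
        exact_mod_cast (by omega : D - i < 2 * D + 2)
    have hz : PP = 0 := by
      refine poly_eq_zero' (by omega) hdeg fun l hl => ?_
      rw [hPP, eval_finsetSum]
      have h1 := key2 z l hl j hj
      have h2 : l ^ (D + 1) * ∑ i ∈ Finset.range (D + 1),
        (l ^ i * At j i z + (-(q z) / l) ^ (i + 1) * Bt j i z) = 0 := by rw [h1, mul_zero]
      rw [← h2, Finset.mul_sum]
      refine Finset.sum_congr rfl fun i hi => ?_
      have hi' := Finset.mem_range.1 hi
      simp only [eval_add, eval_mul, eval_C, eval_pow, eval_X]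
      have e1 : l ^ (D + 1) = l ^ (D - i) * l ^ (i + 1) := by
        rw [← pow_add]; congr 1; omega
      rw [mul_add]
      congr 1
      · rw [pow_add]; ring
      · rw [div_pow, e1]
        field_simp
    intro i hi
    have hi' := Finset.mem_range.1 hi
    constructor
    · have := congrArg (fun P => P.coeff (D + 1 + i)) hz
      simp only [hPP, finsetSum_coeff, coeff_add, coeff_C_mul, coeff_X_pow, coeff_zero] at this
      rw [Finset.sum_eq_single i] at this
      · rw [if_pos rfl, if_neg (by omega)] at this
        simpa using this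
      · intro i' hi'' hne
        have := Finset.mem_range.1 hi''
        rw [if_neg (by omega), if_neg (by omega)]; simp
      · intro h; exact absurd hi h
    · have := congrArg (fun P => P.coeff (D - i)) hz
      simp only [hPP, finsetSum_coeff, coeff_add, coeff_C_mul, coeff_X_pow, coeff_zero] at this
      rw [Finset.sum_eq_single i] at this
      · rw [if_neg (by omega), if_pos rfl] at this
        simpa using this
      · intro i' hi'' hne
        have := Finset.mem_range.1 hi''
        rw [if_neg (by omega), if_neg (by omega)]; simp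
      · intro h; exact absurd hi h
  have hA0 : ∀ j i, At j i = 0 := by
    intro j i
    by_cases hji : j + i ≤ N + 1
    · funext z
      exact (key3 z j (Finset.mem_range.2 (by omega)) i (Finset.mem_range.2 (by omega))).1
    · have ha := hAt1 j i
      have h0 : N + 1 + 1 - j - i = 0 := by omega
      rw [h0] at ha
      exact PL_zero ha
  have hB0 : ∀ j i, Bt j i = 0 := by
    intro j i
    by_cases hji : j + (i + 1) ≤ N + 1
    · have h1 : ∀ z, q z * Bt j i z = 0 := by
        intro z
        have h2 := (key3 z j (Finset.mem_range.2 (by omega)) i (Finset.mem_range.2 (by omega))).2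
        rcases mul_eq_zero.1 h2 with h3 | h3
        · have h4 : q z = 0 := by
            have := pow_eq_zero_iff (by omega : i + 1 ≠ 0) |>.1 h3
            exact neg_eq_zero.1 this
          rw [h4, zero_mul]
        · rw [h3, mul_zero]
      rcases PL_domain hq (hBt1 j i) (by omega) h1 with h2 | h2
      · exact absurd h2 hq0
      · exact h2
    · have ha := hBt1 j i
      have h0 : N + 1 + 1 - j - (i + 1) = 0 := by omega
      rw [h0] at ha
      exact PL_zero ha
  constructor
  · intro j i
    have h1 := hAt2 j i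
    rw [hA0, sub_zero] at h1
    have e : N + 1 + 1 - j - i - 1 = N + 1 - j - i := by omega
    rwa [e] at h1
  · intro j i
    have h1 := hBt2 j i
    rw [hB0, sub_zero] at h1
    have e : N + 1 + 1 - j - (i + 1) - 1 = N + 1 - j - (i + 1) := by omega
    rwa [e] at h1

/-- Main statement on the slice. -/
theorem slice {q : Z → F} (hq : q ∈ PL F Z 3) (hq0 : q ≠ 0)
    (hqh : ∀ (t : F) z, q (t • z) = t ^ 2 * q z) {k D : ℕ} (hkD : k ≤ D)
    (hcard : 2 * D + 3 ≤ Fintype.card F) {G : F × F × Z → F}
    (hGpl : G ∈ PL F (F × F × Z) (D + 1)) (hG : IsoLine q k G) :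
    ∃ A : ℕ → (F × F × Z → F), (∀ j, A j ∈ PL F (F × F × Z) (k + 1 - j)) ∧
      ∀ w, G w = ∑ j ∈ Finset.range (D + 1), Qf q w ^ j * A j w := by
  obtain ⟨A, B, hL, hrep⟩ := NS_families (le_refl D) (PL_le_NS hq D hGpl)
  have hG' : IsoLine q k (Rep q D A B) := by
    have : G = Rep q D A B := funext hrep
    rwa [← this]
  have hdesc : ∀ m, m ≤ D - k → Lev (D - m) A B := by
    intro m
    induction m with
    | zero => intro _; exact hL
    | succ m ih =>
      intro hm
      have h1 := ih (by omega)
      have e : D - m = (D - (m + 1)) + 1 := by omega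
      rw [e] at h1
      exact descent hq hq0 hqh (by omega) (by omega) hcard h1 hG'
  have hk := hdesc (D - k) (le_refl _)
  have e : D - (D - k) = k := by omega
  rw [e] at hk
  refine ⟨fun j w => ∑ i ∈ Finset.range (D + 1),
    (w.1 ^ i * A j i w.2.2 + w.2.1 ^ (i + 1) * B j i w.2.2), ?_, ?_⟩
  · intro j
    refine PL_sum _ fun i _ => ?_
    have hx : (fun w => w.1 : F × F × Z → F) ∈ PL F (F × F × Z) 2 :=
      PL_dual (LinearMap.fst F F (F × Z))
    have hy : (fun w => w.2.1 : F × F × Z → F) ∈ PL F (F × F × Z) 2 :=
      PL_dual ((LinearMap.fst F F Z).comp (LinearMap.snd F F (F × Z)))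
    have hz : ∀ {m : ℕ} {f : Z → F}, f ∈ PL F Z m →
        (fun w => f w.2.2 : F × F × Z → F) ∈ PL F (F × F × Z) m := fun hf =>
      PL_comp hf ((LinearMap.snd F F Z).comp (LinearMap.snd F F (F × Z)))
    refine Submodule.add_mem (PL F (F × F × Z) (k + 1 - j))
      (x := fun w => w.1 ^ i * A j i w.2.2)
      (y := fun w => w.2.1 ^ (i + 1) * B j i w.2.2) ?_ ?_
    · by_cases hji : j + i ≤ k
      · have h1 := PL_mul (PL_pow (m := 1) hx i) (hz (hk.1 j i))
        have e2 : i * 1 + 1 + (k + 1 - j - i) - 1 = k + 1 - j := by omega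
        rw [e2] at h1
        exact h1
      · have h0 : A j i = 0 := by
          have := hk.1 j i
          have e3 : k + 1 - j - i = 0 := by omega
          rw [e3] at this
          exact PL_zero this
        have : (fun w => w.1 ^ i * A j i w.2.2 : F × F × Z → F) = 0 := by
          funext w; rw [h0]; simp
        rw [this]; exact Submodule.zero_mem _
    · by_cases hji : j + (i + 1) ≤ k
      · have h1 := PL_mul (PL_pow (m := 1) hy (i + 1)) (hz (hk.2 j i))
        have e2 : (i + 1) * 1 + 1 + (k + 1 - j - (i + 1)) - 1 = k + 1 - j := by omega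
        rw [e2] at h1
        exact h1
      · have h0 : B j i = 0 := by
          have := hk.2 j i
          have e3 : k + 1 - j - (i + 1) = 0 := by omega
          rw [e3] at this
          exact PL_zero this
        have : (fun w => w.2.1 ^ (i + 1) * B j i w.2.2 : F × F × Z → F) = 0 := by
          funext w; rw [h0]; simp
        rw [this]; exact Submodule.zero_mem _
  · intro w
    rw [hrep]
    unfold Rep
    refine Finset.sum_congr rfl fun j _ => ?_
    rw [Finset.mul_sum]
    refine Finset.sum_congr rfl fun i _ => ?_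
    ring

end Pool.Agent.QuadPoly
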