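import Mathlib
import Pool.Agent.QuadPoly.Descent

namespace Pool.Agent.QuadPoly

open Polynomial

/-! ### quadratic forms -/

structure IsQuad {F : Type*} [Field F] {V : Type*} [AddCommGroup V] [Module F V]
    (Q : V → F) (b : V → V → F) : Prop where
  add : ∀ v w, Q (v + w) = Q v + Q w + b v w
  smul : ∀ (t : F) v, Q (t • v) = t ^ 2 * Q v
  bsmul_left : ∀ (t : F) v w, b (t • v) w = t * b v w
  bsmul_right : ∀ (t : F) v w, b v (t • w) = t * b v w
  badd_left : ∀ v v' w, b (v + v') w = b v w + b v' w

section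

variable {F : Type*} [Field F] {V : Type*} [AddCommGroup V] [Module F V]
  {Z : Type*} [AddCommGroup Z] [Module F Z]

def bf (b : Z → Z → F) (v w : F × F × Z) : F := v.1 * w.2.1 + v.2.1 * w.1 + b v.2.2 w.2.2

theorem IsQuad.lift {q : Z → F} {b : Z → Z → F} (h : IsQuad q b) : IsQuad (Qf q) (bf b) where
  add v w := by simp only [Qf, bf, Prod.fst_add, Prod.snd_add, h.add]; ring
  smul t v := by
    simp only [Qf, Prod.smul_fst, Prod.smul_snd, h.smul, smul_eq_mul]; ring
  bsmul_left t v w := by
    simp only [bf, Prod.smul_fst, Prod.smul_snd, h.bsmul_left, smul_eq_mul]; ring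
  bsmul_right t v w := by
    simp only [bf, Prod.smul_fst, Prod.smul_snd, h.bsmul_right, smul_eq_mul]; ring
  badd_left v v' w := by
    simp only [bf, Prod.fst_add, Prod.snd_add, h.badd_left]; ring

theorem IsQuad.line {Q : V → F} {b : V → V → F} (h : IsQuad Q b) (v w : V) (t : F) :
    Q (v + t • w) = Q v + t * b v w + t ^ 2 * Q w := by
  rw [h.add, h.smul, h.bsmul_right]; ring

theorem IsQuad.line_mem {Q : V → F} {b : V → V → F} (h : IsQuad Q b) {v w : V}
    (hv : Q v = 0) (hw : Q w = 0) (hvw : Q (v + w) = 0) (t : F) : Q (v + t • w) = 0 := by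
  have h1 : b v w = 0 := by
    have := h.add v w
    rw [hv, hw, hvw] at this
    simpa using this.symm
  rw [h.line, hv, hw, h1]; ring

/-! ### polynomials in one functional -/

theorem PL_poly {m : ℕ} {P : F[X]} (hP : P.degree < m) (φ : V →ₗ[F] F) :
    (fun x => P.eval (φ x)) ∈ PL F V m := by
  by_cases h0 : P = 0
  · have : (fun x => P.eval (φ x)) = (0 : V → F) := by funext x; simp [h0]
    rw [this]; exact Submodule.zero_mem _
  · rw [degree_eq_natDegree h0] at hP
    have hm : P.natDegree < m := by exact_mod_cast hP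
    have : (fun x => P.eval (φ x)) =
        fun x => ∑ i ∈ Finset.range m, (P.coeff i • (fun x => φ x) ^ i : V → F) x := by
      funext x
      rw [eval_eq_sum_range' hm]
      simp
    rw [this]
    refine PL_sum _ fun i hi => Submodule.smul_mem _ _ ?_
    have h1 := PL_pow (m := 1) (PL_dual φ) i
    exact PL_mono (by have := Finset.mem_range.1 hi; omega) h1

end

section

variable {F : Type*} [Field F] {V : Type*} [AddCommGroup V] [Module F V]
  {Z : Type*} [AddCommGroup Z] [Module F Z]

/-- homogenisation -/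
theorem homogenise {m : ℕ} {A : V → F} (hA : A ∈ PL F V (m + 1)) :
    ∃ B ∈ PL F (F × V) (m + 1), ∀ x : F, x ≠ 0 → ∀ v, B (x, v) = x ^ m * A (x⁻¹ • v) := by
  refine Submodule.span_induction (p := fun A _ => ∃ B ∈ PL F (F × V) (m + 1),
    ∀ x : F, x ≠ 0 → ∀ v, B (x, v) = x ^ m * A (x⁻¹ • v)) ?_ ?_ ?_ ?_ hA
  · rintro A ⟨l, hl, rfl⟩
    have hfst : (fun w => w.1 : F × V → F) ∈ PL F (F × V) 2 := PL_dual (LinearMap.fst F F V)
    have hsnd : (fun w => lp l w.2 : F × V → F) ∈ PL F (F × V) (l.length + 1) :=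
      PL_comp (lp_mem (Nat.lt_succ_self _)) (LinearMap.snd F F V)
    refine ⟨(fun w => w.1) ^ (m - l.length) * (fun w => lp l w.2), ?_, ?_⟩
    · have := PL_mul (PL_pow (m := 1) hfst (m - l.length)) hsnd
      have e : (m - l.length) * 1 + 1 + (l.length + 1) - 1 = m + 1 := by omega
      rwa [e] at this
    · intro x hx v
      have hscale : ∀ l : List (V →ₗ[F] F), lp l v = x ^ l.length * lp l (x⁻¹ • v) := by
        intro l
        induction l with
        | nil => simp [lp]
        | cons φ l ih =>
          rw [lp_cons, Pi.mul_apply, Pi.mul_apply, ih, map_smul, List.length_cons, pow_succ,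
            smul_eq_mul]
          field_simp
      simp only [Pi.mul_apply, Pi.pow_apply]
      rw [hscale l, ← mul_assoc, ← pow_add]
      congr 2
      omega
  · exact ⟨0, Submodule.zero_mem _, by simp⟩
  · rintro x y _ _ ⟨B, hB1, hB2⟩ ⟨B', hB1', hB2'⟩
    refine ⟨B + B', Submodule.add_mem _ hB1 hB1', fun t ht v => ?_⟩
    rw [Pi.add_apply, hB2 t ht, hB2' t ht, Pi.add_apply]; ring
  · rintro a x _ ⟨B, hB1, hB2⟩
    refine ⟨a • B, Submodule.smul_mem _ _ hB1, fun t ht v => ?_⟩
    rw [Pi.smul_apply, hB2 t ht, Pi.smul_apply, smul_eq_mul, smul_eq_mul]; ring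


variable [Fintype F]

/-- Separately polynomial functions are polynomial. -/
theorem sep {k : ℕ} (hk : k + 1 ≤ Fintype.card F) : ∀ (n : ℕ) (f : (Fin n → F) → F),
    (∀ v i, ∃ P : F[X], P.degree < ((k + 1 : ℕ) : WithBot ℕ) ∧
      ∀ t : F, f (v + t • (Pi.single i 1 : Fin n → F)) = P.eval t) → f ∈ PL F (Fin n → F) (n * k + 1) := by
  classical
  intro n
  induction n with
  | zero =>
    intro f _
    have : f = fun _ => f 0 := by
      funext v; congr 1; exact Subsingleton.elim _ _
    rw [this]
    exact PL_const (by omega) _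
  | succ n ih =>
    intro f hf
    obtain ⟨s, _, hs⟩ := Finset.exists_subset_card_eq
      (s := (Finset.univ : Finset F)) (n := k + 1) (by rw [Finset.card_univ]; exact hk)
    have hrep : f = fun v => ∑ a ∈ s, ((Lagrange.basis s id a).eval (v 0)) *
        f (Fin.cons a (Fin.tail v)) := by
      funext v
      obtain ⟨P, hP1, hP2⟩ := hf (Fin.cons 0 (Fin.tail v)) 0
      have hval : ∀ t : F, f (Fin.cons t (Fin.tail v)) = P.eval t := by
        intro t
        rw [← hP2]
        congr 1
        funext i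
        refine Fin.cases ?_ (fun j => ?_) i
        · simp
        · simp
      have h1 : f v = P.eval (v 0) := by
        rw [← hval]; congr 1; exact (Fin.cons_self_tail v).symm
      have h2 : P = Lagrange.interpolate s id (fun a => P.eval (id a)) := by
        refine Lagrange.eq_interpolate (Function.injective_id.injOn) ?_
        rw [hs]; exact hP1
      rw [h1]
      conv_lhs => rw [h2]
      rw [Lagrange.interpolate_apply, eval_finsetSum]
      refine Finset.sum_congr rfl fun a _ => ?_
      rw [eval_mul, eval_C, hval, id]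
      ring
    rw [hrep]
    refine PL_sum _ fun a ha => ?_
    have hb : (fun v : Fin (n + 1) → F => (Lagrange.basis s id a).eval (v 0)) ∈
        PL F (Fin (n + 1) → F) (k + 1) := by
      refine PL_poly (P := Lagrange.basis s id a) ?_
        (LinearMap.proj (R := F) (φ := fun _ : Fin (n + 1) => F) 0)
      rw [Lagrange.degree_basis Function.injective_id.injOn ha, hs]
      exact_mod_cast Nat.lt_succ_self _
    have hfa : (fun u : Fin n → F => f (Fin.cons a u)) ∈ PL F (Fin n → F) (n * k + 1) := by
      refine ih _ ?_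
      intro v i
      obtain ⟨P, hP1, hP2⟩ := hf (Fin.cons a v) i.succ
      refine ⟨P, hP1, fun t => ?_⟩
      rw [← hP2]
      congr 1
      funext j
      refine Fin.cases ?_ (fun j => ?_) j
      · simp
      · simp [Pi.single_apply]
    have hft := PL_comp hfa (LinearMap.funLeft F F (Fin.succ : Fin n → Fin (n + 1)))
    have := PL_mul hb hft
    have e : k + 1 + (n * k + 1) - 1 = (n + 1) * k + 1 := by
      rw [Nat.succ_mul]; omega
    rw [e] at this
    exact this

/-- `G` is a polynomial function if it has degree `≤ k` along isotropic lines. -/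
theorem iso_poly {m k : ℕ} (hk : k + 1 ≤ Fintype.card F) {q : (Fin m → F) → F}
    {b : (Fin m → F) → (Fin m → F) → F} (hq : IsQuad q b)
    {G : F × F × (Fin m → F) → F} (hG : IsoLine q k G) :
    G ∈ PL F (F × F × (Fin m → F)) ((m + 2) * k + 1) := by
  classical
  let e : Fin m → (Fin m → F) := fun i => Pi.single i 1
  let u : Fin (m + 2) → F × F × (Fin m → F) :=
    Fin.cons (1, 0, 0) (Fin.cons (0, 1, 0) (fun i => (1, -q (e i), e i)))
  let T : (Fin (m + 2) → F) →ₗ[F] F × F × (Fin m → F) := Fintype.linearCombination F u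
  have hT : ∀ c, T c = ∑ i, c i • u i := fun c => Fintype.linearCombination_apply F u c
  have hTs : ∀ i, T (Pi.single i 1) = u i := by
    intro i
    rw [hT, Finset.sum_eq_single i]
    · simp
    · intro j _ hj; simp [hj]
    · intro h; exact absurd (Finset.mem_univ _) h
  have hq0 : q 0 = 0 := by
    have := hq.smul 0 0
    simpa using this
  have hiso : ∀ i, Qf q (u i) = 0 := by
    intro i
    refine Fin.cases ?_ (fun i => Fin.cases ?_ (fun i => ?_) i) i
    · simp [u, Qf, hq0]
    · simp [u, Qf, hq0]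
    · simp [u, Qf]
  have hsurj : Function.Surjective T := by
    rintro ⟨x, y, z⟩
    refine ⟨Fin.cons (x - ∑ i, z i) (Fin.cons (y + ∑ i, z i * q (e i)) z), ?_⟩
    rw [hT, Fin.sum_univ_succ, Fin.sum_univ_succ]
    simp only [u, Fin.cons_zero, Fin.cons_succ]
    have hsum : ∑ i : Fin m, z i • ((1, -q (e i), e i) : F × F × (Fin m → F)) =
        (∑ i, z i, -∑ i, z i * q (e i), z) := by
      refine Prod.ext ?_ (Prod.ext ?_ ?_)
      · rw [Prod.fst_sum]; simp
      · rw [Prod.snd_sum, Prod.fst_sum]; simp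
      · rw [Prod.snd_sum, Prod.snd_sum]
        funext j
        simp only [Prod.smul_snd, Finset.sum_apply, Pi.smul_apply, smul_eq_mul, e]
        rw [Finset.sum_eq_single j]
        · simp
        · intro i _ hi; simp [Ne.symm hi]
        · intro h; exact absurd (Finset.mem_univ _) h
    rw [hsum]
    simp
  obtain ⟨S, hS⟩ := T.exists_rightInverse_of_surjective (LinearMap.range_eq_top.2 hsurj)
  have h1 : (fun c => G (T c)) ∈ PL F (Fin (m + 2) → F) ((m + 2) * k + 1) := by
    refine sep hk _ _ ?_
    intro v i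
    obtain ⟨P, hP1, hP2⟩ := hG (T v) (u i) (hiso i)
    refine ⟨P, hP1, fun t => ?_⟩
    rw [← hP2, map_add, map_smul, hTs]
  have h2 := PL_comp h1 S
  have h3 : (fun w => G (T (S w))) = G := by
    funext w
    have := LinearMap.congr_fun hS w
    simp only [LinearMap.comp_apply, LinearMap.id_apply] at this
    rw [this]
  rwa [h3] at h2

/-- the line condition for a function on the zero set of `M` -/
def LineCond (M : V → F) (k : ℕ) (g : V → F) : Prop :=
  ∀ n h : V, M n = 0 → M h = 0 → M (n + h) = 0 →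
    ∃ P : F[X], P.degree < ((k + 1 : ℕ) : WithBot ℕ) ∧ ∀ t : F, g (n + t • h) = P.eval t

/-- extension along one line -/
theorem ext_line {M : V → F} {k : ℕ} {g P : V → F} (hk : k + 2 ≤ Fintype.card F)
    (hg : LineCond M k g) (hP : P ∈ PL F V (k + 1)) {n h : V} (hn : M n = 0) (hh : M h = 0)
    (hnh : M (n + h) = 0) (heq : ∀ t : F, t ≠ 0 → g (n + t • h) = P (n + t • h)) :
    g n = P n := by
  obtain ⟨R, hR1, hR2⟩ := hg n h hn hh hnh
  obtain ⟨S, hS1, hS2⟩ := PL_line hP n h
  have : R = S := by
    refine poly_eq' (m := k + 1) (by omega) hR1 hS1 fun t ht => ?_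
    rw [← hR2, ← hS2, heq t ht]
  have h0 := hR2 0
  have h1 := hS2 0
  rw [zero_smul, add_zero] at h0 h1
  rw [h0, h1, this]

/-- Homogeneous functions on the quadric `x y + x' y' + q z = 0`. -/
theorem homog {m k : ℕ} (hcard : 2 * ((m + 2) * k) + 3 ≤ Fintype.card F)
    {q : (Fin m → F) → F} {b : (Fin m → F) → (Fin m → F) → F} (hq : IsQuad q b)
    (hq3 : q ∈ PL F (Fin m → F) 3) (hq0 : q ≠ 0)
    {g : F × F × (F × F × (Fin m → F)) → F}
    (hL : LineCond (Qf (Qf q)) k g)
    (hH : ∀ (t : F) n, Qf (Qf q) n = 0 → g (t • n) = t ^ k * g n) :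
    ∃ P ∈ PL F (F × F × (F × F × (Fin m → F))) (k + 1), ∀ n, Qf (Qf q) n = 0 → g n = P n := by
  classical
  have hkle : k ≤ (m + 2) * k := Nat.le_mul_of_pos_left k (by omega)
  have hW : IsQuad (Qf q) (bf b) := hq.lift
  have hE : IsQuad (Qf (Qf q)) (bf (bf b)) := hW.lift
  have hq00 : q 0 = 0 := by
    have := hq.smul 0 0
    simpa using this
  -- the slice function
  set G : F × F × (Fin m → F) → F := fun v => g (1, -Qf q v, v) with hGdef
  have hGiso : IsoLine q k G := by
    intro v h hh
    obtain ⟨P, hP1, hP2⟩ := hL (1, -Qf q v, v) (0, -bf b v h, h) (by simp [Qf])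
      (by simp only [Qf] at hh ⊢; simp [hh]) (by
        have := hW.add v h
        change (1 + 0) * (-Qf q v + -bf b v h) + Qf q (v + h) = 0
        rw [this, hh]; ring)
    refine ⟨P, hP1, fun t => ?_⟩
    rw [← hP2, hGdef]
    beta_reduce
    congr 1
    have h1 := hW.line v h t
    rw [hh] at h1
    refine Prod.ext ?_ (Prod.ext ?_ ?_)
    · simp
    · rw [h1]; simp; ring
    · simp
  have hGpl := iso_poly (by omega) hq hGiso
  obtain ⟨A, hA1, hA2⟩ := slice hq3 hq0 hq.smul hkle hcard hGpl hGiso
  have hhom : ∀ j, ∃ B : F × (F × F × (Fin m → F)) → F,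
      (j ≤ k → B ∈ PL F _ (k - j + 1) ∧
        ∀ x : F, x ≠ 0 → ∀ v, B (x, v) = x ^ (k - j) * A j (x⁻¹ • v)) ∧
      (¬ j ≤ k → B = 0 ∧ A j = 0) := by
    intro j
    by_cases hj : j ≤ k
    · have h1 := hA1 j
      have e : k + 1 - j = k - j + 1 := by omega
      rw [e] at h1
      obtain ⟨B, hB1, hB2⟩ := homogenise h1
      exact ⟨B, fun _ => ⟨hB1, hB2⟩, fun h => absurd hj h⟩
    · refine ⟨0, fun h => absurd h hj, fun _ => ⟨rfl, ?_⟩⟩
      have h1 := hA1 j
      have e : k + 1 - j = 0 := by omega
      rw [e] at h1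
      exact PL_zero h1
  choose B hB1 hB2 using hhom
  let Φ : (F × F × (F × F × (Fin m → F))) →ₗ[F] F × (F × F × (Fin m → F)) :=
    (LinearMap.fst F F _).prod ((LinearMap.snd F F _).comp (LinearMap.snd F F _))
  have hΦ : ∀ x y v, Φ (x, y, v) = (x, v) := fun x y v => rfl
  set P : F × F × (F × F × (Fin m → F)) → F := fun n =>
    ∑ j ∈ Finset.range ((m + 2) * k + 1), (-n.2.1) ^ j * B j (Φ n) with hPdef
  have hP : P ∈ PL F _ (k + 1) := by
    refine PL_sum _ fun j _ => ?_
    by_cases hj : j ≤ k
    · have hy : (fun n => -n.2.1 : F × F × (F × F × (Fin m → F)) → F) ∈ PL F _ 2 :=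
        PL_dual (-((LinearMap.fst F F (F × F × (Fin m → F))).comp
          (LinearMap.snd F F (F × (F × F × (Fin m → F))))))
      have h1 := PL_mul (PL_pow (m := 1) hy j) (PL_comp (hB1 j hj).1 Φ)
      have e : j * 1 + 1 + (k - j + 1) - 1 = k + 1 := by omega
      rw [e] at h1
      exact h1
    · have h0 := (hB2 j hj).1
      have : (fun n : F × F × (F × F × (Fin m → F)) => (-n.2.1) ^ j * B j (Φ n)) = 0 := by
        funext n; rw [h0]; simp
      rw [this]; exact Submodule.zero_mem _
  -- agreement where the first coordinate is nonzero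
  have hne : ∀ n : F × F × (F × F × (Fin m → F)), Qf (Qf q) n = 0 → n.1 ≠ 0 → g n = P n := by
    rintro ⟨x, y, v⟩ hn hx
    simp only at hx
    have hn' : x * y + Qf q v = 0 := hn
    have hy : y = - Qf q v / x := by
      field_simp
      linear_combination hn'
    have hQ : Qf q (x⁻¹ • v) = -(y / x) := by
      rw [hW.smul, hy]; field_simp
    have hn1 : Qf (Qf q) ((1, y / x, x⁻¹ • v) : F × F × (F × F × (Fin m → F))) = 0 := by
      change 1 * (y / x) + Qf q (x⁻¹ • v) = 0
      rw [hQ]; ring
    have hg1 := hH x _ hn1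
    have e1 : x • ((1, y / x, x⁻¹ • v) : F × F × (F × F × (Fin m → F))) = (x, y, v) := by
      refine Prod.ext ?_ (Prod.ext ?_ ?_)
      · simp
      · simp; field_simp
      · simp [smul_smul, hx]
    rw [e1] at hg1
    have hG1 : g (1, y / x, x⁻¹ • v) = G (x⁻¹ • v) := by
      rw [hGdef]; beta_reduce; rw [hQ, neg_neg]
    rw [hg1, hG1, hA2, hPdef]
    beta_reduce
    rw [Finset.mul_sum]
    refine Finset.sum_congr rfl fun j _ => ?_
    rw [hΦ, hQ]
    by_cases hj : j ≤ k
    · rw [(hB1 j hj).2 x hx]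
      have e2 : x ^ k = x ^ (k - j) * x ^ j := by rw [← pow_add]; congr 1; omega
      rw [e2]
      have e3 : (-(y / x)) ^ j = (-y) ^ j / x ^ j := by rw [← div_pow]; congr 1; ring
      rw [e3]
      have : x ^ j ≠ 0 := pow_ne_zero _ hx
      field_simp
    · rw [(hB2 j hj).1, (hB2 j hj).2]; simp
  -- case 1
  have hc1 : ∀ (y : F) (v : F × F × (Fin m → F)), Qf q v = 0 → (∃ w, bf b v w = -y) →
      g (0, y, v) = P (0, y, v) := by
    rintro y v hv ⟨w, hw⟩
    have hn : Qf (Qf q) ((0, y, v) : F × F × (F × F × (Fin m → F))) = 0 := by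
      change 0 * y + Qf q v = 0
      rw [hv]; ring
    have hh : Qf (Qf q) ((1, -Qf q w, w) : F × F × (F × F × (Fin m → F))) = 0 := by
      change 1 * (-Qf q w) + Qf q w = 0
      ring
    have hnh : Qf (Qf q) ((0, y, v) + (1, -Qf q w, w) : F × F × (F × F × (Fin m → F))) = 0 := by
      change (0 + 1) * (y + -Qf q w) + Qf q (v + w) = 0
      rw [hW.add, hv, hw]; ring
    refine ext_line (by omega) hL hP hn hh hnh fun t ht => ?_
    refine hne _ (hE.line_mem hn hh hnh t) ?_
    simpa using ht
  refine ⟨P, hP, ?_⟩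
  rintro ⟨x, y, v⟩ hn
  by_cases hx : x = 0
  · subst hx
    have hv : Qf q v = 0 := by
      have : 0 * y + Qf q v = 0 := hn
      simpa using this
    by_cases hw : ∃ w, bf b v w = -y
    · exact hc1 y v hv hw
    · push Not at hw
      have hy : y ≠ 0 := by
        intro h
        have := hw 0
        rw [h] at this
        have h0 : bf b v 0 = 0 := by
          have := hW.bsmul_right 0 v 0
          simpa using this
        rw [h0] at this
        simp at this
      have hb0 : ∀ w, bf b v w = 0 := by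
        intro w
        by_contra hne0
        refine hw ((-y / bf b v w) • w) ?_
        rw [hW.bsmul_right]
        field_simp
      have hh : Qf (Qf q) ((0, 0, (1, 0, 0)) : F × F × (F × F × (Fin m → F))) = 0 := by
        change (0 : F) * 0 + (1 * 0 + q 0) = 0
        rw [hq00]; ring
      have hQe : Qf q ((1, 0, 0) : F × F × (Fin m → F)) = 0 := by
        change (1 : F) * 0 + q 0 = 0
        rw [hq00]; ring
      have hnh : Qf (Qf q) ((0, y, v) + (0, 0, (1, 0, 0)) : F × F × (F × F × (Fin m → F))) = 0 := by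
        change (0 + 0 : F) * (y + 0) + Qf q (v + (1, 0, 0)) = 0
        rw [hW.add, hv, hb0, hQe]; ring
      refine ext_line (by omega) hL hP hn hh hnh fun t ht => ?_
      have e1 : ((0, y, v) + t • (0, 0, (1, 0, 0)) : F × F × (F × F × (Fin m → F))) =
          (0, y, v + t • (1, 0, 0)) := by
        refine Prod.ext ?_ (Prod.ext ?_ ?_)
        · simp
        · simp
        · rfl
      rw [e1]
      refine hc1 y _ ?_ ⟨(-y / t) • (0, 1, 0), ?_⟩
      · rw [hW.line, hv, hb0, hQe]; ring
      · rw [hW.bsmul_right, hW.badd_left, hb0, hW.bsmul_left]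
        have hbz : b 0 0 = 0 := by
          have := hq.bsmul_left 0 0 0
          simpa using this
        have : bf b ((1, 0, 0) : F × F × (Fin m → F)) (0, 1, 0) = 1 := by
          simp [bf, hbz]
        rw [this]
        field_simp
        ring
  · exact hne _ hn hx

end

end Pool.Agent.QuadPoly
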