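import Mathlib
import Pool.Agent.QuadPoly.Extend

namespace Pool.Agent.QuadPoly

open Polynomial

section decomp

variable {F : Type*} [Field F] {V : Type*} [AddCommGroup V] [Module F V]

/-- the polynomial `t ^ a * φ (1/t)` -/
theorem exists_reverse {φ : F[X]} {a : ℕ} (hφ : φ.degree < ((a + 1 : ℕ) : WithBot ℕ)) :
    ∃ R : F[X], R.natDegree ≤ a ∧ ∀ t : F, t ≠ 0 → R.eval t = t ^ a * φ.eval t⁻¹ := by
  refine ⟨∑ i ∈ Finset.range (a + 1), C (φ.coeff i) * X ^ (a - i), ?_, ?_⟩
  · refine natDegree_sum_le_of_forall_le _ _ fun i hi => ?_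
    refine (natDegree_C_mul_X_pow_le _ _).trans (by omega)
  · intro t ht
    rw [eval_finsetSum]
    by_cases h0 : φ = 0
    · simp [h0]
    have hd : φ.natDegree < a + 1 := by
      rw [degree_eq_natDegree h0] at hφ; exact_mod_cast hφ
    rw [eval_eq_sum_range' hd, Finset.mul_sum]
    refine Finset.sum_congr rfl fun i hi => ?_
    have hi' : i ≤ a := by have := Finset.mem_range.1 hi; omega
    rw [eval_mul, eval_C, eval_pow, eval_X]
    have e : t ^ a = t ^ (a - i) * t ^ i := by rw [← pow_add]; congr 1; omega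
    rw [e, inv_pow]
    field_simp

theorem natDegree_le_of_degree_lt {P : F[X]} {a : ℕ} (h : P.degree < ((a + 1 : ℕ) : WithBot ℕ)) :
    P.natDegree ≤ a := by
  by_cases h0 : P = 0
  · rw [h0]; simp
  · rw [degree_eq_natDegree h0] at h
    have : P.natDegree < a + 1 := by exact_mod_cast h
    omega

theorem degree_lt_of_natDegree_le {P : F[X]} {a : ℕ} (h : P.natDegree ≤ a) :
    P.degree < ((a + 1 : ℕ) : WithBot ℕ) := by
  refine lt_of_le_of_lt degree_le_natDegree ?_
  exact_mod_cast (by omega : P.natDegree < a + 1)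

variable [Fintype F]

/-- Decomposition into homogeneous functions. -/
theorem decomp {M : V → F} {b : V → V → F} (hM : IsQuad M b) {a : ℕ}
    (hcard : 2 * a + 2 ≤ Fintype.card F) {g : V → F} (hg : LineCond M a g) :
    ∃ G : ℕ → V → F, (∀ k, k ≤ a → LineCond M k (G k)) ∧
      (∀ k (t : F) n, M n = 0 → G k (t • n) = t ^ k * G k n) ∧
      ∀ n, M n = 0 → g n = ∑ k ∈ Finset.range (a + 1), G k n := by
  classical
  obtain ⟨S, _, hS⟩ := Finset.exists_subset_card_eq
    (s := (Finset.univ : Finset F)) (n := a + 1) (by rw [Finset.card_univ]; omega)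
  have hM0 : M 0 = 0 := by
    have := hM.smul 0 0
    simpa using this
  set G : ℕ → V → F := fun k n => ∑ c ∈ S, (Lagrange.basis S id c).coeff k * g (c • n) with hG
  have hcoef : ∀ {P : F[X]}, P.degree < ((a + 1 : ℕ) : WithBot ℕ) → ∀ k,
      P.coeff k = ∑ c ∈ S, (Lagrange.basis S id c).coeff k * P.eval c := by
    intro P hP k
    have h2 : P = Lagrange.interpolate S id (fun c => P.eval (id c)) := by
      refine Lagrange.eq_interpolate (Function.injective_id.injOn) ?_
      rw [hS]; exact hP
    conv_lhs => rw [h2]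
    rw [Lagrange.interpolate_apply, finsetSum_coeff]
    refine Finset.sum_congr rfl fun c _ => ?_
    rw [coeff_C_mul, id]; ring
  have hPn : ∀ n, M n = 0 → ∃ P : F[X], P.degree < ((a + 1 : ℕ) : WithBot ℕ) ∧
      (∀ t : F, g (t • n) = P.eval t) ∧ ∀ k, G k n = P.coeff k := by
    intro n hn
    obtain ⟨P, hP1, hP2⟩ := hg 0 n hM0 hn (by rw [zero_add]; exact hn)
    refine ⟨P, hP1, fun t => by rw [← hP2, zero_add], fun k => ?_⟩
    rw [hcoef hP1, hG]
    beta_reduce
    refine Finset.sum_congr rfl fun c _ => ?_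
    rw [← hP2, zero_add]
  have hhom : ∀ k (t : F) n, M n = 0 → G k (t • n) = t ^ k * G k n := by
    intro k t n hn
    obtain ⟨P, hP1, hP2, hP3⟩ := hPn n hn
    obtain ⟨P', hP1', hP2', hP3'⟩ := hPn (t • n) (by rw [hM.smul, hn, mul_zero])
    have hcomp : P' = P.comp (C t * X) := by
      refine poly_eq (m := a + 1) (by omega) hP1' ?_ ?_
      · refine degree_lt_of_natDegree_le (natDegree_comp_le.trans ?_)
        have h1 : (C t * X : F[X]).natDegree ≤ 1 := by compute_degree
        have h2 := natDegree_le_of_degree_lt hP1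
        calc P.natDegree * (C t * X : F[X]).natDegree ≤ P.natDegree * 1 :=
              Nat.mul_le_mul_left _ h1
          _ ≤ a := by omega
      · intro s
        rw [← hP2', smul_smul, hP2, eval_comp]
        congr 1
        simp; ring
    rw [hP3, hP3', hcomp, comp_C_mul_X_coeff]
    ring
  refine ⟨G, ?_, hhom, ?_⟩
  · intro k hk n h hn hh hnh
    -- degree `≤ a` first
    have hdeg : ∀ n h : V, M n = 0 → M h = 0 → M (n + h) = 0 →
        ∃ P : F[X], P.degree < ((a + 1 : ℕ) : WithBot ℕ) ∧ ∀ t : F, G k (n + t • h) = P.eval t := by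
      intro n h hn hh hnh
      have : ∀ c : F, ∃ P : F[X], P.degree < ((a + 1 : ℕ) : WithBot ℕ) ∧
          ∀ t : F, g (c • n + t • (c • h)) = P.eval t := by
        intro c
        refine hg (c • n) (c • h) (by rw [hM.smul, hn, mul_zero]) (by rw [hM.smul, hh, mul_zero]) ?_
        rw [← smul_add, hM.smul, hnh, mul_zero]
      choose R hR1 hR2 using this
      refine ⟨∑ c ∈ S, C ((Lagrange.basis S id c).coeff k) * R c, ?_, ?_⟩
      · refine lt_of_le_of_lt (degree_sum_le _ _) ?_
        rw [Finset.sup_lt_iff (WithBot.bot_lt_coe _)]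
        intro c _
        rw [← smul_eq_C_mul]
        exact lt_of_le_of_lt (degree_smul_le _ _) (hR1 c)
      · intro t
        rw [eval_finsetSum, hG]
        beta_reduce
        refine Finset.sum_congr rfl fun c _ => ?_
        rw [eval_mul, eval_C, ← hR2]
        congr 2
        rw [smul_add, smul_smul, smul_smul, mul_comm c t]
    obtain ⟨ψ, hψ1, hψ2⟩ := hdeg n h hn hh hnh
    obtain ⟨φ, hφ1, hφ2⟩ := hdeg h n hh hn (by rw [add_comm]; exact hnh)
    obtain ⟨R, hR1, hR2⟩ := exists_reverse hφ1
    have hEq : X ^ a * ψ = X ^ k * R := by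
      refine poly_eq' (m := 2 * a + 1) (by omega) ?_ ?_ ?_
      · refine degree_lt_of_natDegree_le (natDegree_mul_le.trans ?_)
        have := natDegree_le_of_degree_lt hψ1
        rw [natDegree_X_pow]; omega
      · refine degree_lt_of_natDegree_le (natDegree_mul_le.trans ?_)
        rw [natDegree_X_pow]; omega
      · intro t ht
        rw [eval_mul, eval_mul, eval_pow, eval_pow, eval_X, hR2 t ht, ← hψ2, ← hφ2]
        have e : n + t • h = t • (h + t⁻¹ • n) := by
          rw [smul_add, smul_smul, mul_inv_cancel₀ ht, one_smul, add_comm]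
        rw [e, hhom]
        · ring
        · refine hM.line_mem hh hn (by rw [add_comm]; exact hnh) _
    refine ⟨ψ, ?_, hψ2⟩
    refine degree_lt_of_natDegree_le ?_
    by_cases h0 : ψ = 0
    · rw [h0]; simp
    have h1 := congrArg natDegree hEq
    have hx : (X ^ a * ψ : F[X]).natDegree = a + ψ.natDegree := by
      rw [natDegree_mul (pow_ne_zero _ X_ne_zero) h0, natDegree_X_pow]
    rw [hx] at h1
    have h2 : (X ^ k * R : F[X]).natDegree ≤ k + a := by
      refine natDegree_mul_le.trans ?_
      rw [natDegree_X_pow]; omega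
    omega
  · intro n hn
    obtain ⟨P, hP1, hP2, hP3⟩ := hPn n hn
    have h1 := hP2 1
    rw [one_smul] at h1
    rw [h1, eval_eq_sum_range' (Nat.lt_succ_of_le (natDegree_le_of_degree_lt hP1))]
    refine Finset.sum_congr rfl fun k _ => ?_
    rw [hP3]; simp

end decomp

section newton

variable {p : ℕ} [hp : Fact p.Prime]

/-- A function on `ZMod p` whose `s`-th difference vanishes is a polynomial of degree `< s`. -/
theorem newton {s : ℕ} (hs : s ≤ p) (f : ZMod p → ZMod p)
    (hf : (fwdDiff (1 : ZMod p))^[s] f = 0) :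
    ∃ P : (ZMod p)[X], P.degree < (s : WithBot ℕ) ∧ ∀ t, f t = P.eval t := by
  have hvan : ∀ k, s ≤ k → (fwdDiff (1 : ZMod p))^[k] f = 0 := by
    intro k hk
    obtain ⟨m, rfl⟩ := Nat.exists_eq_add_of_le hk
    rw [add_comm, Function.iterate_add_apply, hf]
    clear hk
    induction m with
    | zero => rfl
    | succ m ih =>
      rw [Function.iterate_succ_apply', ih]
      funext x; simp [fwdDiff]
  refine ⟨∑ k ∈ Finset.range s, C ((fwdDiff (1 : ZMod p))^[k] f 0 / (k.factorial : ZMod p)) *
    descPochhammer (ZMod p) k, ?_, ?_⟩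
  · refine lt_of_le_of_lt (degree_sum_le _ _) ?_
    rw [Finset.sup_lt_iff (WithBot.bot_lt_coe _)]
    intro k hk
    rw [← smul_eq_C_mul]
    refine lt_of_le_of_lt (degree_smul_le _ _) ?_
    refine lt_of_le_of_lt degree_le_natDegree ?_
    rw [descPochhammer_natDegree]
    exact_mod_cast Finset.mem_range.1 hk
  · intro t
    obtain ⟨n, rfl⟩ : ∃ n : ℕ, (n : ZMod p) = t := ⟨t.val, ZMod.natCast_zmod_val t⟩
    have h1 := shift_eq_sum_fwdDiff_iter (1 : ZMod p) f n 0
    rw [zero_add, nsmul_one] at h1
    rw [h1, eval_finsetSum]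
    have hterm : ∀ k, k ∈ Finset.range s →
        eval (n : ZMod p) (C ((fwdDiff (1 : ZMod p))^[k] f 0 / (k.factorial : ZMod p)) *
          descPochhammer (ZMod p) k) = n.choose k • (fwdDiff (1 : ZMod p))^[k] f 0 := by
      intro k hk
      have hk' := Finset.mem_range.1 hk
      have hfac : (k.factorial : ZMod p) ≠ 0 := by
        rw [Ne, ZMod.natCast_eq_zero_iff, hp.out.dvd_factorial]
        omega
      rw [eval_mul, eval_C, descPochhammer_eval_eq_descFactorial,
        Nat.descFactorial_eq_factorial_mul_choose, nsmul_eq_mul]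
      push_cast
      field_simp
    rw [Finset.sum_congr rfl hterm]
    -- both sums agree
    rcases le_total (n + 1) s with hle | hle
    · refine Finset.sum_subset (Finset.range_mono hle) ?_
      intro k _ hk
      rw [Finset.mem_range, not_lt] at hk
      rw [Nat.choose_eq_zero_of_lt (by omega), zero_smul]
    · symm
      refine Finset.sum_subset (Finset.range_mono hle) ?_
      intro k _ hk
      rw [Finset.mem_range, not_lt] at hk
      rw [hvan k hk]; simp

end newton

end Pool.Agent.QuadPoly
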