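import Mathlib

/-!
Definitions for polynomials on quadric hypersurfaces over `F_p`.
-/

namespace Pool.Agent.QuadPoly.Defs

open Matrix

variable {p d : ℕ}

/-- The quadratic form `M(n) = n A n^T` of a matrix `A` over `F_p = ZMod p`. -/
def quadForm (A : Matrix (Fin d) (Fin d) (ZMod p)) (n : Fin d → ZMod p) : ZMod p :=
  n ⬝ᵥ (A *ᵥ n)

/-- `V(M)`, the zero set of the quadratic form of `A` in `F_p^d`. -/
def V (A : Matrix (Fin d) (Fin d) (ZMod p)) : Set (Fin d → ZMod p) :=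
  {n | quadForm A n = 0}

/-- `Δ_h g (n) = g (n + h) - g n`. -/
def diff (h : Fin d → ZMod p) (g : (Fin d → ZMod p) → ZMod p) : (Fin d → ZMod p) → ZMod p :=
  fun n => g (n + h) - g n

/-- `Δ_{h_s} ⋯ Δ_{h_1} g`. -/
def iterDiff {s : ℕ} (h : Fin s → Fin d → ZMod p) (g : (Fin d → ZMod p) → ZMod p) :
    (Fin d → ZMod p) → ZMod p :=
  (List.ofFn h).foldl (fun f v => diff v f) g

/-- The Gowers set `□_s(Ω)`: tuples `(n, h_1, ..., h_s)` such that
`n + ε_1 h_1 + ⋯ + ε_s h_s ∈ Ω` for every `ε ∈ {0,1}^s`. -/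
def gowersSet (s : ℕ) (Ω : Set (Fin d → ZMod p)) :
    Set ((Fin d → ZMod p) × (Fin s → Fin d → ZMod p)) :=
  {x | ∀ ε : Fin s → Bool, x.1 + ∑ i, (if ε i then x.2 i else 0) ∈ Ω}

/-- Condition (i): all `s`-fold differences of `g` along cubes inside `V(M)` vanish. -/
def CondI (A : Matrix (Fin d) (Fin d) (ZMod p)) (s : ℕ) (g : (Fin d → ZMod p) → ZMod p) : Prop :=
  ∀ n h, (n, h) ∈ gowersSet s (V A) → iterDiff h g n = 0

/-- Condition (ii): `g` agrees on `V(M)` with a polynomial of (total) degree at most `s - 1`. -/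
def CondII (A : Matrix (Fin d) (Fin d) (ZMod p)) (s : ℕ) (g : (Fin d → ZMod p) → ZMod p) : Prop :=
  ∃ P : MvPolynomial (Fin d) (ZMod p), P.totalDegree ≤ s - 1 ∧
    ∀ n ∈ V A, g n = MvPolynomial.eval n P

end Pool.Agent.QuadPoly.Defs
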