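import Mathlib
import Pool.Agent.QuadPoly.Decomp

/-!
Linear algebra: a symmetric matrix of rank at least 5 over a finite field of odd characteristic is
`x y + x' y' + q z` in suitable coordinates, with `q ≠ 0`.
-/

namespace Pool.Agent.QuadPoly

open Polynomial Matrix

section ternary

variable {F : Type*} [Field F] [Fintype F]

theorem exists_root {a b c : F} (ha : a ≠ 0) (hb : b ≠ 0) (hodd : Fintype.card F % 2 = 1) :
    ∃ α β : F, a * α ^ 2 + b * β ^ 2 + c = 0 := by
  obtain ⟨x, y, h⟩ := FiniteField.exists_root_sum_quadratic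
    (f := C a * X ^ 2 + C c) (g := C b * X ^ 2)
    (by
      rw [degree_add_eq_left_of_degree_lt]
      · exact degree_C_mul_X_pow 2 ha
      · rw [degree_C_mul_X_pow 2 ha]
        exact lt_of_le_of_lt degree_C_le (by norm_num))
    (degree_C_mul_X_pow 2 hb) hodd
  refine ⟨x, y, ?_⟩
  simp only [eval_add, eval_mul, eval_C, eval_pow, eval_X] at h
  linear_combination h

/-- A ternary diagonal form is `x y + u s ^ 2` in suitable coordinates. -/
theorem ternary {a b c : F} (ha : a ≠ 0) (hb : b ≠ 0) (hc : c ≠ 0) (h2 : (2 : F) ≠ 0)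
    (hodd : Fintype.card F % 2 = 1) :
    ∃ S : (F × F × F) →ₗ[F] (F × F × F), Function.Surjective S ∧
      ∀ x y s, a * (S (x, y, s)).1 ^ 2 + b * (S (x, y, s)).2.1 ^ 2 + c * (S (x, y, s)).2.2 ^ 2 =
        x * y + (-(a * b * c)) * s ^ 2 := by
  obtain ⟨α, β, hαβ⟩ := exists_root (c := c) ha hb hodd
  let k : F := (4 * c)⁻¹
  have h4 : (4 : F) ≠ 0 := by
    have : (4 : F) = 2 * 2 := by norm_num
    rw [this]; exact mul_ne_zero h2 h2
  have hk : 4 * c * k = 1 := by
    simp only [k]; field_simp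
  let S : (F × F × F) →ₗ[F] (F × F × F) :=
    { toFun := fun v => (α * (v.1 - k * v.2.1) + v.2.2 * b * β,
        β * (v.1 - k * v.2.1) - v.2.2 * a * α, v.1 + k * v.2.1)
      map_add' := by
        intro v w
        refine Prod.ext ?_ (Prod.ext ?_ ?_)
        · simp only [Prod.fst_add, Prod.snd_add]; ring
        · simp only [Prod.fst_add, Prod.snd_add]; ring
        · simp only [Prod.fst_add, Prod.snd_add]; ring
      map_smul' := by
        intro t v
        refine Prod.ext ?_ (Prod.ext ?_ ?_)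
        · simp only [Prod.smul_fst, Prod.smul_snd, smul_eq_mul, RingHom.id_apply]; ring
        · simp only [Prod.smul_fst, Prod.smul_snd, smul_eq_mul, RingHom.id_apply]; ring
        · simp only [Prod.smul_fst, Prod.smul_snd, smul_eq_mul, RingHom.id_apply]; ring }
  have hS : ∀ x y s, S (x, y, s) = (α * (x - k * y) + s * b * β,
      β * (x - k * y) - s * a * α, x + k * y) := fun x y s => rfl
  refine ⟨S, ?_, ?_⟩
  · rintro ⟨A, B, C'⟩
    -- r = x - k y, C' = x + k y
    set r : F := -(a * α * A + b * β * B) / c with hr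
    set s : F := -(β * A - α * B) / c with hs
    refine ⟨((C' + r) / 2, 4 * c * ((C' - r) / 2), s), ?_⟩
    rw [hS]
    have e1 : (C' + r) / 2 - k * (4 * c * ((C' - r) / 2)) = r := by
      have : k * (4 * c * ((C' - r) / 2)) = (C' - r) / 2 := by
        calc k * (4 * c * ((C' - r) / 2)) = (4 * c * k) * ((C' - r) / 2) := by ring
          _ = _ := by rw [hk, one_mul]
      rw [this]; field_simp; ring
    have e2 : (C' + r) / 2 + k * (4 * c * ((C' - r) / 2)) = C' := by
      have : k * (4 * c * ((C' - r) / 2)) = (C' - r) / 2 := by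
        calc k * (4 * c * ((C' - r) / 2)) = (4 * c * k) * ((C' - r) / 2) := by ring
          _ = _ := by rw [hk, one_mul]
      rw [this]; field_simp; ring
    rw [e1, e2]
    refine Prod.ext ?_ (Prod.ext ?_ rfl)
    · change α * r + s * b * β = A
      rw [hr, hs]; field_simp
      linear_combination (-A) * hαβ
    · change β * r - s * a * α = B
      rw [hr, hs]; field_simp
      linear_combination (-B) * hαβ
  · intro x y s
    rw [hS]
    change a * (α * (x - k * y) + s * b * β) ^ 2 + b * (β * (x - k * y) - s * a * α) ^ 2 +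
      c * (x + k * y) ^ 2 = _
    linear_combination ((x - k * y) ^ 2 + a * b * s ^ 2) * hαβ + x * y * hk

end ternary

section wss

variable {F : Type*} [Field F]

/-- weighted sums of squares -/
def wq {m : ℕ} (W : Fin m → F) (z : Fin m → F) : F := ∑ i, W i * z i ^ 2
def wb {m : ℕ} (W : Fin m → F) (z z' : Fin m → F) : F := ∑ i, 2 * W i * (z i * z' i)

theorem wq_isQuad {m : ℕ} (W : Fin m → F) : IsQuad (wq W) (wb W) where
  add v w := by
    simp only [wq, wb, ← Finset.sum_add_distrib, Pi.add_apply]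
    exact Finset.sum_congr rfl fun i _ => by ring
  smul t v := by
    simp only [wq, Finset.mul_sum, Pi.smul_apply, smul_eq_mul]
    exact Finset.sum_congr rfl fun i _ => by ring
  bsmul_left t v w := by
    simp only [wb, Finset.mul_sum, Pi.smul_apply, smul_eq_mul]
    exact Finset.sum_congr rfl fun i _ => by ring
  bsmul_right t v w := by
    simp only [wb, Finset.mul_sum, Pi.smul_apply, smul_eq_mul]
    exact Finset.sum_congr rfl fun i _ => by ring
  badd_left v v' w := by
    simp only [wb, ← Finset.sum_add_distrib, Pi.add_apply]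
    exact Finset.sum_congr rfl fun i _ => by ring

theorem wq_mem {m : ℕ} (W : Fin m → F) : wq W ∈ PL F (Fin m → F) 3 := by
  unfold wq
  refine PL_sum _ fun i _ => ?_
  have h1 : (fun z : Fin m → F => z i) ∈ PL F (Fin m → F) 2 :=
    PL_dual (LinearMap.proj (R := F) (φ := fun _ : Fin m => F) i)
  have h2 := Submodule.smul_mem _ (W i) (PL_pow (m := 1) h1 2)
  exact h2

end wss

section quinary

variable {F : Type*} [Field F] [Fintype F]

/-- If the first five weights are nonzero, the weighted sum of squares is `x y + x' y' + q z`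
in suitable coordinates, with `q ≠ 0`. -/
theorem quinary {n : ℕ} (w : Fin 5 ⊕ Fin n → F) (hw : ∀ i : Fin 5, w (Sum.inl i) ≠ 0)
    (h2 : (2 : F) ≠ 0) (hodd : Fintype.card F % 2 = 1) :
    ∃ (W : Fin (n + 1) → F)
      (T : (F × F × (F × F × (Fin (n + 1) → F))) →ₗ[F] (Fin 5 ⊕ Fin n → F)),
      wq W ≠ 0 ∧ Function.Surjective T ∧
      ∀ x, ∑ k, w k * (T x k) ^ 2 = Qf (Qf (wq W)) x := by
  set a0 := w (Sum.inl 0) with ha0
  set a1 := w (Sum.inl 1) with ha1
  set a2 := w (Sum.inl 2) with ha2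
  set a3 := w (Sum.inl 3) with ha3
  set a4 := w (Sum.inl 4) with ha4
  have n0 : a0 ≠ 0 := hw 0
  have n1 : a1 ≠ 0 := hw 1
  have n2 : a2 ≠ 0 := hw 2
  have n3 : a3 ≠ 0 := hw 3
  have n4 : a4 ≠ 0 := hw 4
  have nu : -(a0 * a1 * a2) ≠ 0 := neg_ne_zero.2 (mul_ne_zero (mul_ne_zero n0 n1) n2)
  obtain ⟨S, hS1, hS2⟩ := ternary n0 n1 n2 h2 hodd
  obtain ⟨S', hS1', hS2'⟩ := ternary nu n3 n4 h2 hodd
  let E := F × F × (F × F × (Fin (n + 1) → F))
  let lX : E →ₗ[F] F := LinearMap.fst F F _
  let lY : E →ₗ[F] F := (LinearMap.fst F F _).comp (LinearMap.snd F F _)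
  let lW : E →ₗ[F] (F × F × (Fin (n + 1) → F)) := (LinearMap.snd F F _).comp (LinearMap.snd F F _)
  let lX' : E →ₗ[F] F := (LinearMap.fst F F _).comp lW
  let lY' : E →ₗ[F] F := (LinearMap.fst F F _).comp ((LinearMap.snd F F _).comp lW)
  let lZ : E →ₗ[F] (Fin (n + 1) → F) := (LinearMap.snd F F _).comp ((LinearMap.snd F F _).comp lW)
  let lz : Fin (n + 1) → E →ₗ[F] F := fun i =>
    (LinearMap.proj (R := F) (φ := fun _ : Fin (n + 1) => F) i).comp lZ
  let B1 : E →ₗ[F] F × F × F := S'.comp (lX'.prod (lY'.prod (lz 0)))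
  let B2 : E →ₗ[F] F × F × F := S.comp (lX.prod (lY.prod ((LinearMap.fst F F _).comp B1)))
  let f0 : E →ₗ[F] F := (LinearMap.fst F F _).comp B2
  let f1 : E →ₗ[F] F := (LinearMap.fst F F _).comp ((LinearMap.snd F F _).comp B2)
  let f2 : E →ₗ[F] F := (LinearMap.snd F F _).comp ((LinearMap.snd F F _).comp B2)
  let f3 : E →ₗ[F] F := (LinearMap.fst F F _).comp ((LinearMap.snd F F _).comp B1)
  let f4 : E →ₗ[F] F := (LinearMap.snd F F _).comp ((LinearMap.snd F F _).comp B1)
  let T : E →ₗ[F] (Fin 5 ⊕ Fin n → F) :=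
    LinearMap.pi (Sum.elim ![f0, f1, f2, f3, f4] (fun j => lz j.succ))
  have hB1 : ∀ x y x' y' (z : Fin (n + 1) → F), B1 (x, y, (x', y', z)) = S' (x', y', z 0) :=
    fun _ _ _ _ _ => rfl
  have hB2 : ∀ x y x' y' (z : Fin (n + 1) → F),
      B2 (x, y, (x', y', z)) = S (x, y, (S' (x', y', z 0)).1) := fun _ _ _ _ _ => rfl
  refine ⟨Fin.cons (-(-(a0 * a1 * a2) * a3 * a4)) (fun j => w (Sum.inr j)), T, ?_, ?_, ?_⟩
  · intro h
    have h1 := congrFun h (Fin.cons 1 0)
    simp only [wq, Fin.sum_univ_succ, Fin.cons_zero, Fin.cons_succ, Pi.zero_apply] at h1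
    have h3 : -(-(a0 * a1 * a2) * a3 * a4) ≠ 0 :=
      neg_ne_zero.2 (mul_ne_zero (mul_ne_zero nu n3) n4)
    apply h3
    simpa using h1
  · intro c
    obtain ⟨⟨x, y, s1⟩, hxy⟩ := hS1 (c (Sum.inl 0), c (Sum.inl 1), c (Sum.inl 2))
    obtain ⟨⟨x', y', z0⟩, hxy'⟩ := hS1' (s1, c (Sum.inl 3), c (Sum.inl 4))
    refine ⟨(x, y, (x', y', Fin.cons z0 (fun j => c (Sum.inr j)))), ?_⟩
    have e1 : B1 (x, y, (x', y', Fin.cons z0 (fun j => c (Sum.inr j)))) =
        (s1, c (Sum.inl 3), c (Sum.inl 4)) := by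
      rw [hB1, Fin.cons_zero, hxy']
    have e2 : B2 (x, y, (x', y', Fin.cons z0 (fun j => c (Sum.inr j)))) =
        (c (Sum.inl 0), c (Sum.inl 1), c (Sum.inl 2)) := by
      rw [hB2, Fin.cons_zero, hxy', hxy]
    funext k
    rcases k with i | j
    · fin_cases i
      · change (B2 _).1 = _; rw [e2]; rfl
      · change (B2 _).2.1 = _; rw [e2]; rfl
      · change (B2 _).2.2 = _; rw [e2]; rfl
      · change (B1 _).2.1 = _; rw [e1]; rfl
      · change (B1 _).2.2 = _; rw [e1]; rfl
    · rfl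
  · rintro ⟨x, y, x', y', z⟩
    rw [Fintype.sum_sum_type, Fin.sum_univ_five]
    have t0 : T (x, y, (x', y', z)) (Sum.inl 0) = (S (x, y, (S' (x', y', z 0)).1)).1 := rfl
    have t1 : T (x, y, (x', y', z)) (Sum.inl 1) = (S (x, y, (S' (x', y', z 0)).1)).2.1 := rfl
    have t2 : T (x, y, (x', y', z)) (Sum.inl 2) = (S (x, y, (S' (x', y', z 0)).1)).2.2 := rfl
    have t3 : T (x, y, (x', y', z)) (Sum.inl 3) = (S' (x', y', z 0)).2.1 := rfl
    have t4 : T (x, y, (x', y', z)) (Sum.inl 4) = (S' (x', y', z 0)).2.2 := rfl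
    have t5 : ∀ j, T (x, y, (x', y', z)) (Sum.inr j) = z j.succ := fun j => rfl
    rw [t0, t1, t2, t3, t4]
    simp only [t5]
    have h1 := hS2 x y (S' (x', y', z 0)).1
    have h3 := hS2' x' y' (z 0)
    simp only [Qf, wq]
    rw [Fin.sum_univ_succ (n := n)]
    simp only [Fin.cons_zero, Fin.cons_succ]
    linear_combination h1 + h3

end quinary

section diag

variable {F : Type*} [Field F]

/-- the quadratic form of a matrix -/
def quad {d : ℕ} (A : Matrix (Fin d) (Fin d) F) (n : Fin d → F) : F := n ⬝ᵥ (A *ᵥ n)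

theorem quad_isQuad {d : ℕ} (A : Matrix (Fin d) (Fin d) F) :
    IsQuad (quad A) (fun v w => v ⬝ᵥ (A *ᵥ w) + w ⬝ᵥ (A *ᵥ v)) where
  add v w := by
    simp only [quad, Matrix.mulVec_add, dotProduct_add, add_dotProduct]; ring
  smul t v := by
    simp only [quad, Matrix.mulVec_smul, dotProduct_smul, smul_dotProduct, smul_eq_mul]; ring
  bsmul_left t v w := by
    simp only [Matrix.mulVec_smul, dotProduct_smul, smul_dotProduct, smul_eq_mul]; ring
  bsmul_right t v w := by
    simp only [Matrix.mulVec_smul, dotProduct_smul, smul_dotProduct, smul_eq_mul]; ring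
  badd_left v v' w := by
    simp only [Matrix.mulVec_add, dotProduct_add, add_dotProduct]; ring

theorem normal_form [Fintype F] {d : ℕ} (A : Matrix (Fin d) (Fin d) F) (hA : A.IsSymm) (hr : 5 ≤ A.rank)
    (h2 : (2 : F) ≠ 0) (hodd : Fintype.card F % 2 = 1) :
    ∃ (n : ℕ) (W : Fin (n + 1) → F)
      (T : (F × F × (F × F × (Fin (n + 1) → F))) →ₗ[F] (Fin d → F)),
      d = n + 5 ∧ wq W ≠ 0 ∧ Function.Surjective T ∧ ∀ x, quad A (T x) = Qf (Qf (wq W)) x := by
  classical
  let _ : Invertible (2 : F) := invertibleOfNonzero h2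
  have hsymm : LinearMap.BilinForm.IsSymm (Matrix.toBilin' A) := by
    refine ⟨fun x y => ?_⟩
    rw [Matrix.toBilin'_apply', Matrix.toBilin'_apply']
    rw [Matrix.dotProduct_mulVec, ← Matrix.mulVec_transpose, hA.eq, dotProduct_comm]
  obtain ⟨v0, hv0⟩ := LinearMap.BilinForm.exists_orthogonal_basis
    (LinearMap.BilinForm.isSymm_iff.1 hsymm)
  have hfr : Module.finrank F (Fin d → F) = d := by simp
  let v : Module.Basis (Fin d) F (Fin d → F) := v0.reindex (finCongr hfr)
  have hv : ∀ i j, i ≠ j → v i ⬝ᵥ (A *ᵥ v j) = 0 := by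
    intro i j hij
    rw [← Matrix.toBilin'_apply']
    have : (finCongr hfr).symm i ≠ (finCongr hfr).symm j := fun h => hij ((finCongr hfr).symm.injective h)
    have h3 := hv0 this
    simpa [v] using h3
  let w : Fin d → F := fun i => v i ⬝ᵥ (A *ᵥ v i)
  -- rank
  let P : Matrix (Fin d) (Fin d) F := (Pi.basisFun F (Fin d)).toMatrix v
  have hP : ∀ i j, P i j = v j i := by
    intro i j
    simp [P, Module.Basis.toMatrix_apply]
  have hdet : IsUnit P.det := by
    have := (Pi.basisFun F (Fin d)).isUnit_det v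
    rwa [Module.Basis.det_apply] at this
  have hdiag : Pᵀ * A * P = Matrix.diagonal w := by
    ext i j
    have e : (Pᵀ * A * P) i j = v i ⬝ᵥ (A *ᵥ v j) := by
      rw [Matrix.mul_assoc, Matrix.mul_apply]
      simp only [Matrix.transpose_apply, hP, dotProduct, Matrix.mulVec, Matrix.mul_apply]
    rw [e]
    by_cases hij : i = j
    · subst hij; simp [w]
    · rw [hv i j hij, Matrix.diagonal_apply_ne _ hij]
  have hrank : Fintype.card {i // w i ≠ 0} = A.rank := by
    rw [← Matrix.rank_diagonal, ← hdiag, Matrix.rank_mul_eq_left_of_isUnit_det _ _ hdet,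
      Matrix.rank_mul_eq_right_of_isUnit_det]
    rw [Matrix.det_transpose]; exact hdet
  have hcard : Fintype.card (Fin 5) ≤ Fintype.card {i // w i ≠ 0} := by
    rw [hrank, Fintype.card_fin]; exact hr
  obtain ⟨f⟩ := Function.Embedding.nonempty_of_card_le hcard
  let f' : Fin 5 → Fin d := fun i => (f i).1
  have hf' : Function.Injective f' := fun i j h => f.injective (Subtype.ext h)
  let n := Fintype.card ((Set.range f')ᶜ : Set (Fin d))
  let σ : Fin 5 ⊕ Fin n ≃ Fin d :=
    (Equiv.sumCongr (Equiv.ofInjective f' hf') (Fintype.equivFin _).symm).trans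
      (Equiv.Set.sumCompl (Set.range f'))
  have hσ : ∀ i : Fin 5, σ (Sum.inl i) = f' i := by
    intro i; simp [σ]
  have hd : d = n + 5 := by
    have := Fintype.card_congr σ
    simp only [Fintype.card_sum, Fintype.card_fin] at this
    omega
  obtain ⟨W, T, hW, hT1, hT2⟩ := quinary (fun k => w (σ k))
    (fun i => by rw [hσ]; exact (f i).2) h2 hodd
  let T1 : (Fin 5 ⊕ Fin n → F) ≃ₗ[F] (Fin d → F) := (v.reindex σ.symm).equivFun.symm
  have hT1' : ∀ c, T1 c = ∑ k, c k • v (σ k) := by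
    intro c
    simp [T1, Module.Basis.equivFun_symm_apply]
  refine ⟨n, W, T1.toLinearMap.comp T, hd, hW, T1.surjective.comp hT1, ?_⟩
  intro x
  rw [← hT2]
  change quad A (T1 (T x)) = _
  rw [hT1']
  unfold quad
  rw [Matrix.mulVec_sum, sum_dotProduct]
  refine Finset.sum_congr rfl fun k _ => ?_
  rw [dotProduct_sum, Finset.sum_eq_single k]
  · rw [Matrix.mulVec_smul, dotProduct_smul, smul_dotProduct, smul_eq_mul, smul_eq_mul]
    simp only [w]
    ring
  · intro l _ hl
    rw [Matrix.mulVec_smul, dotProduct_smul, smul_dotProduct,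
      hv _ _ (fun h => hl (σ.injective h.symm))]
    simp
  · intro h; exact absurd (Finset.mem_univ _) h

end diag

end Pool.Agent.QuadPoly
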