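import Mathlib
import Pool.Agent.QuadPoly.Defs
import Pool.Agent.QuadPoly.Linear

namespace Pool.Agent.QuadPoly

open Matrix Defs

section mv

variable {F : Type*} [Field F] {d : ℕ}

theorem PL_of_mv {m : ℕ} (P : MvPolynomial (Fin d) F) (hP : P.totalDegree < m) :
    (fun x => MvPolynomial.eval x P) ∈ PL F (Fin d → F) m := by
  have h1 : (fun x => MvPolynomial.eval x P) =
      fun x => ∑ u ∈ P.support, (P.coeff u • (fun x : Fin d → F => ∏ i, x i ^ u i)) x := by
    funext x
    rw [MvPolynomial.eval_eq']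
    rfl
  rw [h1]
  refine PL_sum _ fun u hu => Submodule.smul_mem _ _ ?_
  have h2 : ∀ s : Finset (Fin d), (fun x : Fin d → F => ∏ i ∈ s, x i ^ u i) ∈
      PL F (Fin d → F) (∑ i ∈ s, u i + 1) := by
    classical
    intro s
    induction s using Finset.induction_on with
    | empty =>
      simp only [Finset.prod_empty, Finset.sum_empty]
      exact PL_one (by norm_num)
    | insert a s ha ih =>
      have e : (fun x : Fin d → F => ∏ i ∈ insert a s, x i ^ u i) =
          (fun x => x a) ^ u a * (fun x => ∏ i ∈ s, x i ^ u i) := by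
        funext x; rw [Finset.prod_insert ha]; rfl
      rw [e, Finset.sum_insert ha]
      have h3 : (fun x : Fin d → F => x a) ∈ PL F (Fin d → F) 2 :=
        PL_dual (LinearMap.proj (R := F) (φ := fun _ : Fin d => F) a)
      have := PL_mul (PL_pow (m := 1) h3 (u a)) ih
      have e2 : u a * 1 + 1 + (∑ i ∈ s, u i + 1) - 1 = u a + ∑ i ∈ s, u i + 1 := by omega
      rwa [e2] at this
  refine PL_mono ?_ (h2 Finset.univ)
  have h3 := MvPolynomial.le_totalDegree hu
  have h4 : (u.sum fun _ e => e) = ∑ i, u i := by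
    rw [Finsupp.sum_fintype]; simp
  rw [h4] at h3
  omega

theorem mv_of_PL {m : ℕ} {f : (Fin d → F) → F} (hf : f ∈ PL F (Fin d → F) (m + 1)) :
    ∃ P : MvPolynomial (Fin d) F, P.totalDegree ≤ m ∧ ∀ x, f x = MvPolynomial.eval x P := by
  refine Submodule.span_induction (p := fun f _ => ∃ P : MvPolynomial (Fin d) F,
    P.totalDegree ≤ m ∧ ∀ x, f x = MvPolynomial.eval x P) ?_ ?_ ?_ ?_ hf
  · rintro f ⟨l, hl, rfl⟩
    have h1 : ∀ l : List ((Fin d → F) →ₗ[F] F), ∃ P : MvPolynomial (Fin d) F,
        P.totalDegree ≤ l.length ∧ ∀ x, lp l x = MvPolynomial.eval x P := by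
      intro l
      induction l with
      | nil => exact ⟨1, by simp, fun x => by simp [lp]⟩
      | cons φ l ih =>
        obtain ⟨P, hP1, hP2⟩ := ih
        refine ⟨(∑ i, MvPolynomial.C (φ (Pi.single i 1)) * MvPolynomial.X i) * P, ?_, ?_⟩
        · refine (MvPolynomial.totalDegree_mul _ _).trans ?_
          rw [List.length_cons, add_comm l.length 1]
          refine add_le_add ?_ hP1
          refine MvPolynomial.totalDegree_finsetSum_le fun i _ => ?_
          refine (MvPolynomial.totalDegree_mul _ _).trans ?_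
          rw [MvPolynomial.totalDegree_C, zero_add]
          exact (MvPolynomial.totalDegree_X i).le
        · intro x
          rw [lp_cons, Pi.mul_apply, hP2, map_mul]
          congr 1
          rw [map_sum]
          have : x = ∑ i, x i • (Pi.single i 1 : Fin d → F) := by
            classical
            exact (pi_eq_sum_univ' x).trans (by simp)
          conv_lhs => rw [this]
          rw [map_sum]
          refine Finset.sum_congr rfl fun i _ => ?_
          simp [mul_comm]
    obtain ⟨P, hP1, hP2⟩ := h1 l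
    exact ⟨P, by omega, hP2⟩
  · exact ⟨0, by simp, by simp⟩
  · rintro x y _ _ ⟨P, hP1, hP2⟩ ⟨Q, hQ1, hQ2⟩
    refine ⟨P + Q, (MvPolynomial.totalDegree_add _ _).trans (max_le hP1 hQ1), fun t => ?_⟩
    rw [Pi.add_apply, hP2, hQ2, map_add]
  · rintro a x _ ⟨P, hP1, hP2⟩
    refine ⟨a • P, (MvPolynomial.totalDegree_smul_le _ _).trans hP1, fun t => ?_⟩
    rw [Pi.smul_apply, hP2, MvPolynomial.smul_eval, smul_eq_mul]

end mv

section diff

variable {p d : ℕ} [hp : Fact p.Prime]

omit hp in
theorem iterDiff_zero (h : Fin 0 → Fin d → ZMod p) (g : (Fin d → ZMod p) → ZMod p) :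
    iterDiff h g = g := by
  simp [iterDiff]

omit hp in
theorem iterDiff_succ {s : ℕ} (h : Fin (s + 1) → Fin d → ZMod p)
    (g : (Fin d → ZMod p) → ZMod p) :
    iterDiff h g = iterDiff (fun i => h i.succ) (diff (h 0) g) := by
  simp [iterDiff, List.ofFn_succ]

theorem iterDiff_congr : ∀ {s : ℕ} (h : Fin s → Fin d → ZMod p)
    (g g' : (Fin d → ZMod p) → ZMod p) (n : Fin d → ZMod p),
    (∀ ε : Fin s → Bool, g (n + ∑ i, (if ε i then h i else 0)) =
      g' (n + ∑ i, (if ε i then h i else 0))) → iterDiff h g n = iterDiff h g' n := by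
  intro s
  induction s with
  | zero =>
    intro h g g' n H
    rw [iterDiff_zero, iterDiff_zero]
    have := H (fun _ => true)
    simpa using this
  | succ s ih =>
    intro h g g' n H
    rw [iterDiff_succ, iterDiff_succ]
    refine ih _ _ _ n fun ε => ?_
    have h1 := H (Fin.cons true ε)
    have h2 := H (Fin.cons false ε)
    rw [Fin.sum_univ_succ] at h1 h2
    simp only [Fin.cons_zero, Fin.cons_succ, if_true, Bool.false_eq_true, if_false, zero_add]
      at h1 h2
    simp only [diff]
    have e : n + ∑ i : Fin s, (if ε i then h i.succ else 0) + h 0 =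
        n + (h 0 + ∑ i : Fin s, (if ε i then h i.succ else 0)) := by abel
    rw [e, h1, h2]

theorem PL_diff {m : ℕ} {f : (Fin d → ZMod p) → ZMod p} (v : Fin d → ZMod p)
    (hf : f ∈ PL (ZMod p) (Fin d → ZMod p) m) :
    diff v f ∈ PL (ZMod p) (Fin d → ZMod p) (m - 1) := by
  refine Submodule.span_induction (p := fun f _ => diff v f ∈
    PL (ZMod p) (Fin d → ZMod p) (m - 1)) ?_ ?_ ?_ ?_ hf
  · rintro f ⟨l, hl, rfl⟩
    have h1 : ∀ l : List ((Fin d → ZMod p) →ₗ[ZMod p] ZMod p), diff v (lp l) ∈
        PL (ZMod p) (Fin d → ZMod p) l.length := by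
      intro l
      induction l with
      | nil =>
        have : diff v (lp ([] : List ((Fin d → ZMod p) →ₗ[ZMod p] ZMod p))) = 0 := by
          funext x; simp [diff, lp]
        rw [this]; exact Submodule.zero_mem _
      | cons φ l ih =>
        have e : diff v (lp (φ :: l)) = (fun x => φ x) * diff v (lp l) +
            φ v • (lp l + diff v (lp l)) := by
          funext x
          simp only [diff, lp_cons, Pi.mul_apply, Pi.add_apply, Pi.smul_apply, smul_eq_mul,
            map_add]
          ring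
        rw [e, List.length_cons]
        refine Submodule.add_mem _ ?_ (Submodule.smul_mem _ _ (Submodule.add_mem _ ?_ ?_))
        · have := PL_mul (PL_dual φ) ih
          exact PL_mono (by omega) this
        · exact lp_mem (Nat.lt_succ_self _)
        · exact PL_mono (Nat.le_succ _) ih
    exact PL_mono (by omega) (h1 l)
  · have : diff v (0 : (Fin d → ZMod p) → ZMod p) = 0 := by
      funext x; simp [diff]
    rw [this]; exact Submodule.zero_mem _
  · intro x y _ _ hx hy
    have : diff v (x + y) = diff v x + diff v y := by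
      funext z; simp only [diff, Pi.add_apply]; ring
    rw [this]; exact Submodule.add_mem _ hx hy
  · intro a x _ hx
    have : diff v (a • x) = a • diff v x := by
      funext z; simp only [diff, Pi.smul_apply, smul_eq_mul]; ring
    rw [this]; exact Submodule.smul_mem _ _ hx

theorem iterDiff_PL : ∀ {s : ℕ} (h : Fin s → Fin d → ZMod p)
    {f : (Fin d → ZMod p) → ZMod p}, f ∈ PL (ZMod p) (Fin d → ZMod p) s → iterDiff h f = 0 := by
  intro s
  induction s with
  | zero =>
    intro h f hf
    rw [iterDiff_zero]; exact PL_zero hf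
  | succ s ih =>
    intro h f hf
    rw [iterDiff_succ]
    exact ih _ (by simpa using PL_diff (h 0) hf)

/-- (ii) implies (i). -/
theorem condI_of_condII {A : Matrix (Fin d) (Fin d) (ZMod p)} {s : ℕ} (hs : 1 ≤ s)
    {g : (Fin d → ZMod p) → ZMod p} (h : CondII A s g) : CondI A s g := by
  obtain ⟨P, hP1, hP2⟩ := h
  intro n h hn
  have h1 : iterDiff h g n = iterDiff h (fun x => MvPolynomial.eval x P) n :=
    iterDiff_congr h _ _ n fun ε => hP2 _ (hn ε)
  rw [h1, iterDiff_PL h (PL_of_mv P (by omega))]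
  rfl

theorem iterDiff_const (h : Fin d → ZMod p) : ∀ (s : ℕ) (g : (Fin d → ZMod p) → ZMod p),
    iterDiff (fun _ : Fin s => h) g = (diff h)^[s] g := by
  intro s
  induction s with
  | zero => intro g; rw [iterDiff_zero]; rfl
  | succ s ih =>
    intro g
    rw [iterDiff_succ, ih, Function.iterate_succ_apply]

theorem iter_line (n h : Fin d → ZMod p) : ∀ (s : ℕ) (g : (Fin d → ZMod p) → ZMod p)
    (t : ZMod p), (fwdDiff (1 : ZMod p))^[s] (fun t => g (n + t • h)) t =
      (diff h)^[s] g (n + t • h) := by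
  intro s
  induction s with
  | zero => intro g t; rfl
  | succ s ih =>
    intro g t
    have e : (fwdDiff (1 : ZMod p) fun t => g (n + t • h)) = fun t => diff h g (n + t • h) := by
      funext t
      simp only [fwdDiff, diff, add_smul, one_smul, add_assoc]
    rw [Function.iterate_succ_apply, Function.iterate_succ_apply, ← ih, e]

theorem lineCond_of_condI {A : Matrix (Fin d) (Fin d) (ZMod p)} {a : ℕ} (ha : a + 1 ≤ p)
    {g : (Fin d → ZMod p) → ZMod p} (hg : CondI A (a + 1) g) : LineCond (quad A) a g := by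
  intro n h hn hh hnh
  refine newton ha (fun t => g (n + t • h)) ?_
  funext t
  rw [iter_line, ← iterDiff_const]
  refine hg _ _ ?_
  intro ε
  have e : n + t • h + ∑ i : Fin (a + 1), (if ε i then h else 0) =
      n + (t + ((Finset.univ.filter fun i => ε i = true).card : ZMod p)) • h := by
    rw [← Finset.sum_filter, Finset.sum_const, add_smul, Nat.cast_smul_eq_nsmul, add_assoc]
  change n + t • h + ∑ i : Fin (a + 1), (if ε i then h else 0) ∈ V A
  rw [e]
  exact (quad_isQuad A).line_mem hn hh hnh _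

/-- The main theorem. -/
theorem main {A : Matrix (Fin d) (Fin d) (ZMod p)} (hA : A.IsSymm) (hr : 5 ≤ A.rank)
    {s : ℕ} (hs : 1 ≤ s) (hps : 2 * s * d ≤ p) (g : (Fin d → ZMod p) → ZMod p) :
    CondI A s g ↔ CondII A s g := by
  refine ⟨fun hg => ?_, condI_of_condII hs⟩
  have hcardp : Fintype.card (ZMod p) = p := ZMod.card p
  have hd5 : 5 ≤ d := by
    refine hr.trans ?_
    have := Matrix.rank_le_card_width A
    simpa using this
  have hp10 : 10 ≤ p := by nlinarith
  have hodd : p % 2 = 1 := by
    rcases hp.out.eq_two_or_odd with h | h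
    · omega
    · exact h
  have h2 : (2 : ZMod p) ≠ 0 := by
    intro h
    have h3 : ((2 : ℕ) : ZMod p) = 0 := by exact_mod_cast h
    rw [ZMod.natCast_eq_zero_iff] at h3
    have := Nat.le_of_dvd (by norm_num) h3
    omega
  obtain ⟨n, W, T, hdn, hW, hT1, hT2⟩ := normal_form A hA hr h2 (by rw [hcardp]; exact hodd)
  obtain ⟨a, rfl⟩ : ∃ a, s = a + 1 := ⟨s - 1, by omega⟩
  have hps' : 2 * (a + 1) * (n + 5) ≤ p := by rw [← hdn]; exact hps
  have hline : LineCond (quad A) a g := lineCond_of_condI (by nlinarith) hg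
  have hlineT : LineCond (Qf (Qf (wq W))) a (fun x => g (T x)) := by
    intro x y hx hy hxy
    obtain ⟨P, hP1, hP2⟩ := hline (T x) (T y) (by rw [hT2, hx]) (by rw [hT2, hy])
      (by rw [← map_add, hT2, hxy])
    refine ⟨P, hP1, fun t => ?_⟩
    rw [← hP2]
    change g (T (x + t • y)) = _
    rw [map_add, map_smul]
  have hQ : IsQuad (Qf (Qf (wq W))) (bf (bf (wb W))) := (wq_isQuad W).lift.lift
  obtain ⟨G, hG1, hG2, hG3⟩ := decomp hQ (by rw [hcardp]; nlinarith) hlineT
  have hpoly : ∀ k, k ≤ a → ∃ P ∈ PL (ZMod p) _ (k + 1), ∀ x, Qf (Qf (wq W)) x = 0 →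
      G k x = P x := by
    intro k hk
    refine homog ?_ (wq_isQuad W) (wq_mem W) hW (hG1 k hk) (hG2 k)
    rw [hcardp]
    have h5 : (n + 1 + 2) * k ≤ (n + 3) * a := Nat.mul_le_mul_left _ hk
    nlinarith
  have hP : ∃ P ∈ PL (ZMod p) (ZMod p × ZMod p × (ZMod p × ZMod p × (Fin (n + 1) → ZMod p)))
      (a + 1), ∀ x, Qf (Qf (wq W)) x = 0 → g (T x) = P x := by
    have : ∀ k, ∃ P, (k ≤ a → P ∈ PL (ZMod p) (ZMod p × ZMod p × (ZMod p × ZMod p ×
        (Fin (n + 1) → ZMod p))) (k + 1) ∧ ∀ x, Qf (Qf (wq W)) x = 0 → G k x = P x) := by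
      intro k
      by_cases hk : k ≤ a
      · obtain ⟨P, hP1, hP2⟩ := hpoly k hk
        exact ⟨P, fun _ => ⟨hP1, hP2⟩⟩
      · exact ⟨0, fun h => absurd h hk⟩
    choose P hP using this
    refine ⟨fun x => ∑ k ∈ Finset.range (a + 1), P k x, ?_, ?_⟩
    · refine PL_sum _ fun k hk => ?_
      have hk' : k ≤ a := by have := Finset.mem_range.1 hk; omega
      exact PL_mono (by omega) (hP k hk').1
    · intro x hx
      rw [hG3 x hx]
      refine Finset.sum_congr rfl fun k hk => ?_
      have hk' : k ≤ a := by have := Finset.mem_range.1 hk; omega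
      exact (hP k hk').2 x hx
  obtain ⟨P, hP1, hP2⟩ := hP
  obtain ⟨S, hS⟩ := T.exists_rightInverse_of_surjective (LinearMap.range_eq_top.2 hT1)
  have hTS : ∀ y, T (S y) = y := fun y => by
    have := LinearMap.congr_fun hS y
    simpa using this
  obtain ⟨R, hR1, hR2⟩ := mv_of_PL (PL_comp hP1 S)
  refine ⟨R, by simpa using hR1, fun y hy => ?_⟩
  rw [← hR2, ← hP2, hTS]
  rw [← hT2, hTS]
  exact hy

end diff

end Pool.Agent.QuadPoly
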